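import Mathlib
set_option autoImplicit false

/-! Polluted bootstrap percolation (MP_33582f_pr): definitions. -/

namespace Pool.Agent.W826.PB
open MeasureTheory

section Bits
variable {I : Type} [Fintype I]

/-- Weight of a configuration of independent bits, bit `i` is `true` with probability `s i`. -/
noncomputable def wt (s : I → ℝ) (ω : I → Bool) : ℝ := ∏ i, (if ω i then s i else 1 - s i)

/-- Expectation over independent bits. -/
noncomputable def Ex [DecidableEq I] (s : I → ℝ) (F : (I → Bool) → ℝ) : ℝ := ∑ ω, wt s ω * F ω

/-- Discrete derivative in direction `i`. -/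
def D [DecidableEq I] (i : I) (F : (I → Bool) → ℝ) (ω : I → Bool) : ℝ :=
  F (Function.update ω i true) - F (Function.update ω i false)

end Bits

/-- Initial state of a site: occupied, closed or empty. -/
inductive St
  | occ | clo | emp
  deriving DecidableEq

instance : Fintype St := ⟨{St.occ, St.clo, St.emp}, by intro x; cases x <;> simp⟩

instance : MeasurableSpace St := ⊤
instance : DiscreteMeasurableSpace St := ⟨fun _ => trivial⟩

/-- The law of the initial state of one site: occupied with probability `p`, closed with
probability `q`, empty with probability `1 - p - q` (a junk value outside the parameter range). -/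
noncomputable def siteLaw (p q : ℝ) : Measure St := by
  classical
  exact if 0 ≤ p ∧ 0 ≤ q ∧ p + q ≤ 1 then
    ENNReal.ofReal p • Measure.dirac St.occ + ENNReal.ofReal q • Measure.dirac St.clo
      + ENNReal.ofReal (1 - p - q) • Measure.dirac St.emp
  else Measure.dirac St.emp

instance (p q : ℝ) : IsProbabilityMeasure (siteLaw p q) := by
  unfold siteLaw
  split_ifs with h
  · constructor
    simp only [Measure.add_apply, Measure.smul_apply, measure_univ, smul_eq_mul, mul_one]
    rw [← ENNReal.ofReal_add h.1 h.2.1, ← ENNReal.ofReal_add (by linarith) (by linarith)]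
    rw [show p + q + (1 - p - q) = 1 by ring, ENNReal.ofReal_one]
  · infer_instance

/-- The neighbour of `x` in direction `j`: `x + e_i` for `j = (i, true)`, `x - e_i` for
`j = (i, false)`. -/
def nb {d : ℕ} (x : Fin d → ℤ) (j : Fin d × Bool) : Fin d → ℤ :=
  x + Pi.single j.1 (if j.2 then 1 else -1)

/-- The number of the `2d` nearest neighbours of `x` that lie in `O`. -/
noncomputable def cnt {d : ℕ} (O : Set (Fin d → ℤ)) (x : Fin d → ℤ) : ℕ := by
  classical
  exact (Finset.univ.filter (fun j : Fin d × Bool => nb x j ∈ O)).card

/-- The set of sites occupied at time `t`, with threshold `r`. -/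
noncomputable def occ {d : ℕ} (r : ℕ) (ξ : (Fin d → ℤ) → St) : ℕ → Set (Fin d → ℤ)
  | 0 => {x | ξ x = St.occ}
  | t + 1 => {x | x ∈ occ r ξ t ∨ (ξ x = St.emp ∧ r ≤ cnt (occ r ξ t) x)}

/-- The law of the initial configuration on `ℤ^d`. -/
noncomputable def law (d : ℕ) (p q : ℝ) : Measure ((Fin d → ℤ) → St) :=
  Measure.infinitePi (fun _ : Fin d → ℤ => siteLaw p q)

instance (d : ℕ) (p q : ℝ) : IsProbabilityMeasure (law d p q) := by
  unfold law; infer_instance

/-- The probability that the origin is occupied at some finite time. -/
noncomputable def phi (d r : ℕ) (p q : ℝ) : ℝ :=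
  (law d p q).real {ξ | ∃ t, (0 : Fin d → ℤ) ∈ occ r ξ t}

/-- The probability that the site `y` is occupied at time `t`. -/
noncomputable def phiT (d r : ℕ) (p q : ℝ) (t : ℕ) (y : Fin d → ℤ) : ℝ :=
  (law d p q).real {ξ | y ∈ occ r ξ t}

/-! ### Two bits per site -/

/-- `a`: seed bit, `b`: closed bit. -/
def dec (a b : Bool) : St := if a then St.occ else if b then St.clo else St.emp

/-- The configuration coded by two bits per site of `Λ`; sites outside `Λ` are closed. -/
noncomputable def ext {d : ℕ} (Λ : Finset (Fin d → ℤ)) (ω : Λ × Bool → Bool) :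
    (Fin d → ℤ) → St := by
  classical
  exact fun x => if h : x ∈ Λ then dec (ω (⟨x, h⟩, false)) (ω (⟨x, h⟩, true)) else St.clo

/-- Bit parameters: seed bits have parameter `p`, closed bits have parameter `b`. -/
def par {d : ℕ} (Λ : Finset (Fin d → ℤ)) (p b : ℝ) : Λ × Bool → ℝ :=
  fun i => if i.2 then b else p

/-- Indicator that `y` is occupied at time `t` in the configuration coded by `ω`. -/
noncomputable def ind {d : ℕ} (Λ : Finset (Fin d → ℤ)) (r t : ℕ) (y : Fin d → ℤ)
    (ω : Λ × Bool → Bool) : ℝ := by
  classical
  exact if y ∈ occ r (ext Λ ω) t then 1 else 0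

end Pool.Agent.W826.PB
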