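import Pool.Agent.W826.PB.Ineq
set_option autoImplicit false

/-! Assembly of project PB. -/

namespace Pool.Agent.W826.PB
open Finset MeasureTheory Filter Topology

variable {d : ℕ}

theorem Psi_anti (hru : P_russo) (d r t : ℕ) {p b b' : ℝ} (hp0 : 0 ≤ p) (hp1 : p ≤ 1)
    (hb0 : 0 ≤ b) (hbb : b ≤ b') (hb1 : b' ≤ 1) : Psi d r t p b' ≤ Psi d r t p b := by
  have hd : ∀ u, HasDerivAt (fun v => Psi d r t p v)
      (0 * SA d r t p u - 1 * SB d r t p u) u := fun u =>
    Psi_deriv hru d r t (P := fun _ => p) (B := fun v => v) (hasDerivAt_const u p) (hasDerivAt_id u)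
  have hA : AntitoneOn (fun v => Psi d r t p v) (Set.Icc 0 1) := by
    apply antitoneOn_of_deriv_nonpos (convex_Icc 0 1)
    · exact fun u _ => (hd u).continuousAt.continuousWithinAt
    · exact fun u _ => (hd u).differentiableAt.differentiableWithinAt
    · intro u hu
      rw [interior_Icc] at hu
      rw [(hd u).deriv]
      have := SB_nonneg d r t hp0 hp1 hu.1.le hu.2.le
      linarith
  exact hA ⟨hb0, hbb.trans hb1⟩ ⟨hb0.trans hbb, hb1⟩ hbb

theorem Psi_ge (d r t : ℕ) {p b : ℝ} (hp0 : 0 ≤ p) (hp1 : p ≤ 1) (hb0 : 0 ≤ b) (hb1 : b ≤ 1) :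
    p ≤ Psi d r t p b := by
  classical
  have hs := par_ok (box d t) hp0 hp1 hb0 hb1
  set i : box d t × Bool := (⟨0, zero_mem_box t⟩, false) with hi
  have h1 : Ex (par (box d t) p b) (fun ω => if ω i = true then (1 : ℝ) else 0) = p := by
    rw [Ex_split (par (box d t) p b) i]
    simp only [Function.update_self, if_true, Bool.false_eq_true, if_false]
    rw [Ex_const, Ex_const]
    simp [par, hi]
  refine le_trans h1.symm.le ?_
  unfold Psi
  apply Ex_mono hs
  intro ω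
  split_ifs with h
  · rw [ind_eq]
    apply occ_mono_time (Nat.zero_le t)
    rw [mem_occ_zero, ext_mem _ (zero_mem_box t)]
    exact dec_occ.mpr h
  · exact (ind_nonneg _ _ _ _ _).1

theorem path_bound (hbr : P_bridge) (hloc : P_local) (htr : P_trans) (hru : P_russo)
    (hca : P_calc) (d r t : ℕ) {p0 b0 ε q : ℝ} (hp0 : 0 < p0) (hp1 : p0 ≤ 1) (hb0 : 0 ≤ b0)
    (hε : 0 < ε) (hε4 : ε ≤ 1 / 4) (hq : b0 + 2 * ε ≤ q) (hq1 : q < 1)
    (h0 : Psi d r t p0 b0 ≤ ε) {u : ℝ} (hu : 0 ≤ u) :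
    Psi d r t (p0 * Real.exp (-u)) q ≤ Real.exp (-u) := by
  set P : ℝ → ℝ := fun v => p0 * Real.exp (-v) with hPdef
  set B : ℝ → ℝ := fun v => b0 + 2 * ε * (1 - Real.exp (-v / 2)) with hBdef
  have hP : ∀ v, HasDerivAt P (-(P v)) v := by
    intro v
    have h := ((hasDerivAt_neg v).exp).const_mul p0
    have e : p0 * (Real.exp (-v) * -1) = -(P v) := by simp only [hPdef]; ring
    rw [e] at h
    exact h
  have hB : ∀ v, HasDerivAt B (ε * Real.exp (-v / 2)) v := by
    intro v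
    have h1 : HasDerivAt (fun w : ℝ => -w / 2) (-1 / 2) v := (hasDerivAt_neg v).div_const 2
    have h := ((h1.exp).const_sub 1).const_mul (2 * ε) |>.const_add b0
    have e : 2 * ε * -(Real.exp (-v / 2) * (-1 / 2)) = ε * Real.exp (-v / 2) := by ring
    rw [e] at h
    exact h
  have hPr : ∀ v, 0 ≤ v → 0 < P v ∧ P v ≤ 1 := by
    intro v hv
    have h1 : Real.exp (-v) ≤ 1 := Real.exp_le_one_iff.mpr (by linarith)
    have h2 := Real.exp_pos (-v)
    refine ⟨mul_pos hp0 h2, ?_⟩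
    calc p0 * Real.exp (-v) ≤ 1 * 1 := mul_le_mul hp1 h1 h2.le (by norm_num)
      _ = 1 := one_mul 1
  have hBr : ∀ v, 0 ≤ v → 0 ≤ B v ∧ B v ≤ q := by
    intro v hv
    have h1 : Real.exp (-v / 2) ≤ 1 := Real.exp_le_one_iff.mpr (by linarith)
    have h2 := Real.exp_pos (-v / 2)
    constructor
    · simp only [hBdef]
      have : 0 ≤ 2 * ε * (1 - Real.exp (-v / 2)) := mul_nonneg (by linarith) (by linarith)
      linarith
    · simp only [hBdef]
      have : 2 * ε * (1 - Real.exp (-v / 2)) ≤ 2 * ε * 1 :=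
        mul_le_mul_of_nonneg_left (by linarith) (by linarith)
      linarith
  have hψ : ∀ v, HasDerivAt (fun w => Psi d r t (P w) (B w))
      (-(P v) * SA d r t (P v) (B v) - ε * Real.exp (-v / 2) * SB d r t (P v) (B v)) v :=
    fun v => Psi_deriv hru d r t (hP v) (hB v)
  have key := hca (fun w => Psi d r t (P w) (B w))
    (fun v => -(P v) * SA d r t (P v) (B v) - ε * Real.exp (-v / 2) * SB d r t (P v) (B v)) ε
    hε hε4
    (fun v hv => lt_of_lt_of_le (hPr v hv).1 (Psi_ge d r t (hPr v hv).1.le (hPr v hv).2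
      (hBr v hv).1 ((hBr v hv).2.trans hq1.le)))
    (fun v _ => hψ v)
    (by
      have e1 : P 0 = p0 := by simp [hPdef]
      have e2 : B 0 = b0 := by simp [hBdef]
      simp only [e1, e2]
      exact h0)
    (by
      intro v hv hle
      have hin := main_ineq hbr hloc htr d r t (hPr v hv).1.le (hPr v hv).2 (hBr v hv).1
        (lt_of_le_of_lt (hBr v hv).2 hq1)
      have hSB := SB_nonneg d r t (hPr v hv).1.le (hPr v hv).2 (hBr v hv).1
        ((hBr v hv).2.trans hq1.le)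
      have hpos : 0 ≤ Psi d r t (P v) (B v) := (hPr v hv).1.le.trans
        (Psi_ge d r t (hPr v hv).1.le (hPr v hv).2 (hBr v hv).1 ((hBr v hv).2.trans hq1.le))
      have h1 : B v * Psi d r t (P v) (B v) ≤ ε * Real.exp (-v / 2) := by
        calc B v * Psi d r t (P v) (B v) ≤ 1 * Psi d r t (P v) (B v) :=
              mul_le_mul_of_nonneg_right ((hBr v hv).2.trans hq1.le) hpos
          _ = Psi d r t (P v) (B v) := one_mul _
          _ ≤ _ := hle
      have h2 := mul_le_mul_of_nonneg_right h1 hSB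
      linarith)
  have h := key u hu
  refine le_trans ?_ h
  exact Psi_anti hru d r t (hPr u hu).1.le (hPr u hu).2 (hBr u hu).1 (hBr u hu).2 hq1.le

theorem phiT_le_phi (d r : ℕ) (p q : ℝ) (t : ℕ) : phiT d r p q t 0 ≤ phi d r p q := by
  unfold phiT phi
  exact measureReal_mono (fun ξ hξ => ⟨t, hξ⟩) (measure_ne_top _ _)

theorem phi_le_of (d r : ℕ) (p q : ℝ) {C : ℝ} (hC : 0 ≤ C) (h : ∀ t, phiT d r p q t 0 ≤ C) :
    phi d r p q ≤ C := by
  unfold phi
  have e : {ξ : (Fin d → ℤ) → St | ∃ t, (0 : Fin d → ℤ) ∈ occ r ξ t}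
      = ⋃ t, {ξ | (0 : Fin d → ℤ) ∈ occ r ξ t} := by
    ext ξ
    simp
  rw [e, measureReal_def]
  apply ENNReal.toReal_le_of_le_ofReal hC
  have hm : Monotone (fun t => {ξ : (Fin d → ℤ) → St | (0 : Fin d → ℤ) ∈ occ r ξ t}) :=
    fun t u htu ξ hξ => occ_mono_time htu hξ
  rw [hm.measure_iUnion]
  apply iSup_le
  intro t
  have ht := h t
  unfold phiT at ht
  rw [measureReal_def] at ht
  exact (ENNReal.le_ofReal_iff_toReal_le (measure_ne_top _ _) hC).mpr ht

theorem phi_le_one (d r : ℕ) (p q : ℝ) : phi d r p q ≤ 1 := by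
  unfold phi
  exact measureReal_le_one

theorem linear_bound (hbr : P_bridge) (hloc : P_local) (htr : P_trans) (hru : P_russo)
    (hca : P_calc) (d r : ℕ) {q' q : ℝ} (hq0 : 0 ≤ q') (hqq : q' < q) (hq1 : q < 1)
    (hlim : Tendsto (fun p => phi d r p q') (𝓝[Set.Ioc 0 (1 - q')] 0) (𝓝 0)) :
    ∃ C : ℝ, ∀ p, 0 < p → p ≤ 1 - q → phi d r p q ≤ C * p := by
  set b0 : ℝ := (q' + q) / 2 with hb0def
  set ε : ℝ := min (1 / 4) ((q - q') / 4) with hεdef
  have hε : 0 < ε := lt_min (by norm_num) (by linarith)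
  have hε4 : ε ≤ 1 / 4 := min_le_left _ _
  have hεq : ε ≤ (q - q') / 4 := min_le_right _ _
  have hb0 : 0 ≤ b0 := by simp only [hb0def]; linarith
  have hb0' : b0 + 2 * ε ≤ q := by simp only [hb0def]; linarith
  rw [nhdsWithin_Ioc_eq_nhdsGT (by linarith : (0 : ℝ) < 1 - q')] at hlim
  have ev1 : ∀ᶠ p in 𝓝[>] (0 : ℝ), phi d r p q' < ε := hlim.eventually (gt_mem_nhds hε)
  have ev2 : ∀ᶠ p in 𝓝[>] (0 : ℝ), p ∈ Set.Ioo (0 : ℝ) (b0 - q') :=
    Ioo_mem_nhdsGT (by simp only [hb0def]; linarith)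
  obtain ⟨p0, h1, h2⟩ := (ev1.and ev2).exists
  have hp0 : 0 < p0 := h2.1
  have hp1 : p0 < 1 := by
    have := h2.2
    simp only [hb0def] at this
    linarith
  have h1p : 0 < 1 - p0 := by linarith
  have hb1 : b0 ≤ 1 := by linarith
  have hdiv : q' / (1 - p0) ≤ b0 := by
    rw [div_le_iff₀ h1p]
    have := h2.2
    nlinarith
  have hstart : ∀ t, Psi d r t p0 b0 ≤ ε := by
    intro t
    calc Psi d r t p0 b0 ≤ Psi d r t p0 (q' / (1 - p0)) :=
          Psi_anti hru d r t hp0.le hp1.le (div_nonneg hq0 h1p.le) hdiv hb1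
      _ = phiT d r p0 (q' / (1 - p0) * (1 - p0)) t 0 :=
          Psi_eq hbr hloc d r t hp0.le hp1.le (div_nonneg hq0 h1p.le) (hdiv.trans hb1)
      _ = phiT d r p0 q' t 0 := by rw [div_mul_cancel₀ _ h1p.ne']
      _ ≤ phi d r p0 q' := phiT_le_phi d r p0 q' t
      _ ≤ ε := h1.le
  refine ⟨1 / p0, fun p hp hpq => ?_⟩
  by_cases hle : p ≤ p0
  · have hq0' : 0 ≤ q := by linarith
    have h1p' : 0 < 1 - p := by linarith
    apply phi_le_of d r p q (by positivity)
    intro t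
    have hqd : q ≤ q / (1 - p) := by
      rw [le_div_iff₀ h1p']
      nlinarith
    have hqd1 : q / (1 - p) ≤ 1 := by
      rw [div_le_one h1p']
      linarith
    have e1 : phiT d r p q t 0 = Psi d r t p (q / (1 - p)) := by
      rw [Psi_eq hbr hloc d r t hp.le (by linarith) (div_nonneg hq0' h1p'.le) hqd1,
        div_mul_cancel₀ _ h1p'.ne']
    have hu : 0 ≤ Real.log (p0 / p) := Real.log_nonneg ((one_le_div hp).mpr hle)
    have hexp : Real.exp (-Real.log (p0 / p)) = p / p0 := by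
      rw [Real.exp_neg, Real.exp_log (div_pos hp0 hp), inv_div]
    have hpp : p0 * Real.exp (-Real.log (p0 / p)) = p := by
      rw [hexp]; field_simp
    have hpb := path_bound hbr hloc htr hru hca d r t hp0 hp1.le hb0 hε hε4 hb0' hq1 (hstart t) hu
    rw [hpp, hexp] at hpb
    calc phiT d r p q t 0 = Psi d r t p (q / (1 - p)) := e1
      _ ≤ Psi d r t p q := Psi_anti hru d r t hp.le (by linarith) hq0' hqd hqd1
      _ ≤ p / p0 := hpb
      _ = 1 / p0 * p := by ring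
  · push Not at hle
    have h3 := phi_le_one d r p q
    have h4 : 1 ≤ 1 / p0 * p := by
      rw [one_div, inv_mul_eq_div, one_le_div hp0]
      exact hle.le
    linarith

/-- The critical pollution density: the infimum of those `q ∈ [0, 1]` for which
`phi p q → 0` as `p → 0+` (with `p ≤ 1 - q`). -/
noncomputable def qc (d r : ℕ) : ℝ :=
  sInf {q : ℝ | 0 ≤ q ∧ q ≤ 1 ∧
    Tendsto (fun p => phi d r p q) (𝓝[Set.Ioc 0 (1 - q)] 0) (𝓝 0)}

/-- `gamma q = limsup_{p → 0+} phi p q / p`, with values in `[0, ∞]`. -/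
noncomputable def gamma (d r : ℕ) (q : ℝ) : ENNReal :=
  limsup (fun p => ENNReal.ofReal (phi d r p q / p)) (𝓝[Set.Ioc 0 (1 - q)] 0)

theorem bound_of_qc (hbr : P_bridge) (hloc : P_local) (htr : P_trans) (hru : P_russo)
    (hca : P_calc) (d r : ℕ) {q : ℝ} (h : qc d r < q) (hq : q ≤ 1) :
    ∃ C : ℝ, ∀ p, 0 < p → p ≤ 1 - q → phi d r p q ≤ C * p := by
  rcases hq.lt_or_eq with hq1 | rfl
  · have hne : {q : ℝ | 0 ≤ q ∧ q ≤ 1 ∧
        Tendsto (fun p => phi d r p q) (𝓝[Set.Ioc 0 (1 - q)] 0) (𝓝 0)}.Nonempty := by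
      refine ⟨1, by norm_num, le_rfl, ?_⟩
      simp
    obtain ⟨q', hq', hlt⟩ := exists_lt_of_csInf_lt hne h
    exact linear_bound hbr hloc htr hru hca d r hq'.1 hlt hq1 hq'.2.2
  · exact ⟨0, fun p hp hp' => absurd hp (by linarith)⟩

theorem gamma_lt (d r : ℕ) {q C : ℝ} (hC : ∀ p, 0 < p → p ≤ 1 - q → phi d r p q ≤ C * p) :
    gamma d r q < ⊤ := by
  unfold gamma
  refine lt_of_le_of_lt (limsup_le_of_le (a := ENNReal.ofReal C) (by isBoundedDefault) ?_)
    ENNReal.ofReal_lt_top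
  filter_upwards [self_mem_nhdsWithin] with p hp
  apply ENNReal.ofReal_le_ofReal
  rw [div_le_iff₀ hp.1]
  exact hC p hp.1 hp.2

end Pool.Agent.W826.PB
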