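import Pool.Agent.W826.PB.Def
set_option autoImplicit false

/-! Statements of the parts of project PB (MP_33582f_pr). -/

namespace Pool.Agent.W826.PB
open MeasureTheory

/-- PB-1: finite bit expectation versus the product law restricted to a finite set of sites. -/
def P_bridge : Prop := ∀ (d : ℕ) (Λ : Finset (Fin d → ℤ)) (p b : ℝ), 0 ≤ p → p ≤ 1 → 0 ≤ b → b ≤ 1 →
  ∀ A : Set ((Fin d → ℤ) → St),
    (law d p (b * (1 - p))).real
        {ξ | (fun x => by classical exact (if x ∈ Λ then ξ x else St.clo)) ∈ A}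
      = Ex (par Λ p b) (fun ω => by classical exact (if ext Λ ω ∈ A then (1 : ℝ) else 0))

/-- PB-2: translation invariance. -/
def P_trans : Prop := ∀ (d r : ℕ) (p q : ℝ) (t : ℕ) (y : Fin d → ℤ),
  phiT d r p q t y = phiT d r p q t 0

/-- PB-3: Russo's formula along a path of parameters. -/
def P_russo : Prop := ∀ (I : Type) [Fintype I] [DecidableEq I] (s : ℝ → I → ℝ) (s' : I → ℝ)
  (u : ℝ) (F : (I → Bool) → ℝ), (∀ i, HasDerivAt (fun v => s v i) (s' i) u) →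
  HasDerivAt (fun v => Ex (s v) F) (∑ i, s' i * Ex (s u) (D i F)) u

/-- PB-4: the differential inequality. -/
def P_calc : Prop := ∀ (ψ ψ' : ℝ → ℝ) (ε : ℝ), 0 < ε → ε ≤ 1 / 4 → (∀ s, 0 ≤ s → 0 < ψ s) →
  (∀ s, 0 ≤ s → HasDerivAt ψ (ψ' s) s) → ψ 0 ≤ ε →
  (∀ s, 0 ≤ s → ψ s ≤ ε * Real.exp (-s / 2) → ψ' s ≤ -(ψ s * (1 - ψ s))) →
  ∀ s, 0 ≤ s → ψ s ≤ Real.exp (-s)

/-- PB-5: locality: whether `y` is occupied at time `t` only depends on the sites of the box of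
radius `t` around `y`. -/
def P_local : Prop := ∀ (d r t : ℕ) (y : Fin d → ℤ) (ξ η : (Fin d → ℤ) → St),
  (∀ x : Fin d → ℤ, (∀ i, |x i - y i| ≤ (t : ℤ)) → ξ x = η x) → (y ∈ occ r ξ t ↔ y ∈ occ r η t)

end Pool.Agent.W826.PB
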