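import Pool.Agent.W826.PB.Strat
import Pool.Agent.W826.PB.Props
set_option autoImplicit false

/-! The differential inequality for polluted bootstrap percolation. -/

namespace Pool.Agent.W826.PB
open Finset MeasureTheory

variable {d : ℕ}

/-- The box of radius `t`. -/
noncomputable def box (d t : ℕ) : Finset (Fin d → ℤ) := Fintype.piFinset (fun _ => Finset.Icc (-(t : ℤ)) t)

theorem mem_box {t : ℕ} {x : Fin d → ℤ} : x ∈ box d t ↔ ∀ i, |x i| ≤ (t : ℤ) := by
  unfold box
  simp [Fintype.mem_piFinset, abs_le]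

theorem zero_mem_box (t : ℕ) : (0 : Fin d → ℤ) ∈ box d t := by
  rw [mem_box]
  intro i
  simp

/-- The finite volume probability. -/
noncomputable def Psi (d r t : ℕ) (p b : ℝ) : ℝ :=
  Ex (par (box d t) p b) (ind (box d t) r t 0)

noncomputable def SA (d r t : ℕ) (p b : ℝ) : ℝ :=
  ∑ x : box d t, Ex (par (box d t) p b) (fun ω => |D (x, false) (ind (box d t) r t 0) ω|)

noncomputable def SB (d r t : ℕ) (p b : ℝ) : ℝ :=
  ∑ x : box d t, Ex (par (box d t) p b) (fun ω => |D (x, true) (ind (box d t) r t 0) ω|)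

theorem ind_mono {Λ : Finset (Fin d → ℤ)} {r t : ℕ} {y : Fin d → ℤ} {ω ω' : Λ × Bool → Bool}
    (h : Below (ext Λ ω) (ext Λ ω')) : ind Λ r t y ω ≤ ind Λ r t y ω' := by
  by_cases hy : y ∈ occ r (ext Λ ω) t
  · rw [ind_eq hy, ind_eq (occ_mono h t hy)]
  · have : ind Λ r t y ω = 0 := by unfold ind; simp [hy]
    rw [this]
    exact (ind_nonneg _ _ _ _ _).1

theorem D_false {Λ : Finset (Fin d → ℤ)} {r t : ℕ} {y : Fin d → ℤ} (x : Λ)
    (ω : Λ × Bool → Bool) : 0 ≤ D (x, false) (ind Λ r t y) ω := by
  classical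
  unfold D
  rw [sub_nonneg]
  apply ind_mono
  intro z
  by_cases hz : z ∈ Λ
  · rw [ext_mem _ hz, ext_mem _ hz]
    by_cases hzx : (⟨z, hz⟩ : Λ) = x
    · subst hzx
      simp [dec]
    · have h1 : ((⟨z, hz⟩ : Λ), false) ≠ (x, false) := fun h => hzx (Prod.ext_iff.mp h).1
      have h2 : ((⟨z, hz⟩ : Λ), true) ≠ (x, false) := fun h => hzx (Prod.ext_iff.mp h).1
      rw [Function.update_of_ne h1, Function.update_of_ne h1, Function.update_of_ne h2,
        Function.update_of_ne h2]
      constructor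
      · exact id
      · intro h; rw [h]; simp
  · rw [ext_not _ hz, ext_not _ hz]
    simp

theorem D_true {Λ : Finset (Fin d → ℤ)} {r t : ℕ} {y : Fin d → ℤ} (x : Λ)
    (ω : Λ × Bool → Bool) : D (x, true) (ind Λ r t y) ω ≤ 0 := by
  classical
  unfold D
  rw [sub_nonpos]
  apply ind_mono
  intro z
  by_cases hz : z ∈ Λ
  · rw [ext_mem _ hz, ext_mem _ hz]
    by_cases hzx : (⟨z, hz⟩ : Λ) = x
    · subst hzx
      have h1 : ((⟨z, hz⟩ : Λ), false) ≠ ((⟨z, hz⟩ : Λ), true) := by simp
      rw [Function.update_of_ne h1, Function.update_of_ne h1, Function.update_self,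
        Function.update_self]
      cases ω (⟨z, hz⟩, false) <;> simp [dec]
    · have h1 : ((⟨z, hz⟩ : Λ), false) ≠ (x, true) := fun h => hzx (Prod.ext_iff.mp h).1
      have h2 : ((⟨z, hz⟩ : Λ), true) ≠ (x, true) := fun h => hzx (Prod.ext_iff.mp h).1
      rw [Function.update_of_ne h1, Function.update_of_ne h1, Function.update_of_ne h2,
        Function.update_of_ne h2]
      constructor
      · exact id
      · intro h; rw [h]; simp
  · rw [ext_not _ hz, ext_not _ hz]
    simp

theorem Psi_eq (hbr : P_bridge) (hloc : P_local) (d r t : ℕ) {p b : ℝ} (hp0 : 0 ≤ p) (hp1 : p ≤ 1)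
    (hb0 : 0 ≤ b) (hb1 : b ≤ 1) : Psi d r t p b = phiT d r p (b * (1 - p)) t 0 := by
  classical
  have h := hbr d (box d t) p b hp0 hp1 hb0 hb1 {η | (0 : Fin d → ℤ) ∈ occ r η t}
  have e1 : Psi d r t p b = Ex (par (box d t) p b)
      (fun ω => if ext (box d t) ω ∈ {η | (0 : Fin d → ℤ) ∈ occ r η t} then (1 : ℝ) else 0) := by
    unfold Psi
    congr 1
  have e2 : phiT d r p (b * (1 - p)) t 0 = (law d p (b * (1 - p))).real
      {ξ | (fun x => (if x ∈ box d t then ξ x else St.clo)) ∈
        {η | (0 : Fin d → ℤ) ∈ occ r η t}} := by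
    unfold phiT
    congr 1
    ext ξ
    simp only [Set.mem_ofPred_eq]
    apply hloc
    intro x hx
    have : x ∈ box d t := by
      rw [mem_box]
      intro i
      simpa using hx i
    simp [this]
  rw [e1, e2]
  convert h.symm

theorem Ex_ind_le (hbr : P_bridge) (hloc : P_local) (htr : P_trans) (d r t : ℕ) {p b : ℝ}
    (hp0 : 0 ≤ p) (hp1 : p ≤ 1) (hb0 : 0 ≤ b) (hb1 : b ≤ 1) (y : Fin d → ℤ) :
    Ex (par (box d t) p b) (ind (box d t) r t y) ≤ Psi d r t p b := by
  classical
  have h := hbr d (box d t) p b hp0 hp1 hb0 hb1 {η | y ∈ occ r η t}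
  have e1 : Ex (par (box d t) p b) (ind (box d t) r t y) = Ex (par (box d t) p b)
      (fun ω => if ext (box d t) ω ∈ {η | y ∈ occ r η t} then (1 : ℝ) else 0) := by
    congr 1
  have e2 : (law d p (b * (1 - p))).real
      {ξ | (fun x => (if x ∈ box d t then ξ x else St.clo)) ∈ {η | y ∈ occ r η t}}
      ≤ phiT d r p (b * (1 - p)) t y := by
    unfold phiT
    apply measureReal_mono
    · intro ξ hξ
      simp only [Set.mem_ofPred_eq] at hξ ⊢
      apply occ_mono (η := ξ) _ t hξ
      intro x
      by_cases hx : x ∈ box d t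
      · simp only [hx, if_true]
        constructor
        · exact id
        · intro h; rw [h]; simp
      · simp [hx]
    · exact measure_ne_top _ _
  rw [e1, Psi_eq hbr hloc d r t hp0 hp1 hb0 hb1, ← htr d r p (b * (1 - p)) t y]
  refine le_trans (le_of_eq ?_) e2
  convert h.symm

theorem SA_nonneg (d r t : ℕ) {p b : ℝ} (hp0 : 0 ≤ p) (hp1 : p ≤ 1) (hb0 : 0 ≤ b) (hb1 : b ≤ 1) :
    0 ≤ SA d r t p b :=
  Finset.sum_nonneg fun _ _ => Ex_nonneg (par_ok _ hp0 hp1 hb0 hb1) fun _ => abs_nonneg _

theorem SB_nonneg (d r t : ℕ) {p b : ℝ} (hp0 : 0 ≤ p) (hp1 : p ≤ 1) (hb0 : 0 ≤ b) (hb1 : b ≤ 1) :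
    0 ≤ SB d r t p b :=
  Finset.sum_nonneg fun _ _ => Ex_nonneg (par_ok _ hp0 hp1 hb0 hb1) fun _ => abs_nonneg _

/-- The differential inequality. -/
theorem main_ineq (hbr : P_bridge) (hloc : P_local) (htr : P_trans) (d r t : ℕ) {p b : ℝ}
    (hp0 : 0 ≤ p) (hp1 : p ≤ 1) (hb0 : 0 ≤ b) (hb1 : b < 1) :
    Psi d r t p b * (1 - Psi d r t p b) ≤ p * SA d r t p b + b * Psi d r t p b * SB d r t p b := by
  classical
  have hs := par_ok (box d t) hp0 hp1 hb0 hb1.le
  have h1b : 0 < 1 - b := by linarith
  have h := osss (s := par (box d t) p b) hs (f := ind (box d t) r t 0)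
    (fun ω => ind_nonneg _ _ _ _ _) (V := VV (box d t) r t b)
    (fun i ω => by
      unfold VV
      split_ifs
      · norm_num
      · exact mul_nonneg (inv_nonneg.mpr h1b.le) (ind_nonneg _ _ _ _ _).1)
    (fun S σ => strategy (box d t) r t hp0 hp1 hb0 hb1 S σ)
  simp only [ind_sq] at h
  have e0 : Ex (par (box d t) p b) (fun ω => ind (box d t) r t 0 ω) = Psi d r t p b := rfl
  have e0' : Ex (par (box d t) p b) (ind (box d t) r t 0) = Psi d r t p b := rfl
  rw [e0] at h
  rw [Fintype.sum_prod_type] at h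
  have h2 : ∑ x : box d t, ∑ c : Bool, Ex (par (box d t) p b) (VV (box d t) r t b (x, c)) *
      (par (box d t) p b (x, c) * (1 - par (box d t) p b (x, c)) *
        Ex (par (box d t) p b) (fun ω => |D (x, c) (ind (box d t) r t 0) ω|))
      ≤ p * SA d r t p b + b * Psi d r t p b * SB d r t p b := by
    unfold SA SB
    rw [Finset.mul_sum, Finset.mul_sum, ← Finset.sum_add_distrib]
    apply Finset.sum_le_sum
    intro x _
    rw [Fintype.sum_bool]
    have hIA : 0 ≤ Ex (par (box d t) p b) (fun ω => |D (x, false) (ind (box d t) r t 0) ω|) :=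
      Ex_nonneg hs fun _ => abs_nonneg _
    have hIB : 0 ≤ Ex (par (box d t) p b) (fun ω => |D (x, true) (ind (box d t) r t 0) ω|) :=
      Ex_nonneg hs fun _ => abs_nonneg _
    have eA : Ex (par (box d t) p b) (VV (box d t) r t b (x, false)) = 1 := by
      have : VV (box d t) r t b (x, false) = fun _ => 1 := by
        funext ω; simp [VV]
      rw [this, Ex_const]
    have eB : Ex (par (box d t) p b) (VV (box d t) r t b (x, true))
        = (1 - b)⁻¹ * Ex (par (box d t) p b) (ind (box d t) r t x) := by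
      have : VV (box d t) r t b (x, true) = fun ω => (1 - b)⁻¹ * ind (box d t) r t x ω := by
        funext ω; simp [VV]
      rw [this, Ex_mul]
    have hle := Ex_ind_le hbr hloc htr d r t hp0 hp1 hb0 hb1.le (x : Fin d → ℤ)
    rw [eA, eB]
    have epA : par (box d t) p b (x, false) = p := by simp [par]
    have epB : par (box d t) p b (x, true) = b := by simp [par]
    rw [epA, epB]
    have t1 : (1 - b)⁻¹ * Ex (par (box d t) p b) (ind (box d t) r t x) *
        (b * (1 - b) * Ex (par (box d t) p b) (fun ω => |D (x, true) (ind (box d t) r t 0) ω|))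
        = Ex (par (box d t) p b) (ind (box d t) r t x) *
          (b * Ex (par (box d t) p b) (fun ω => |D (x, true) (ind (box d t) r t 0) ω|)) := by
      field_simp
    rw [t1]
    have t2 : Ex (par (box d t) p b) (ind (box d t) r t x) *
          (b * Ex (par (box d t) p b) (fun ω => |D (x, true) (ind (box d t) r t 0) ω|))
        ≤ Psi d r t p b *
          (b * Ex (par (box d t) p b) (fun ω => |D (x, true) (ind (box d t) r t 0) ω|)) :=
      mul_le_mul_of_nonneg_right hle (mul_nonneg hb0 hIB)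
    have t3 : 1 * (p * (1 - p) *
        Ex (par (box d t) p b) (fun ω => |D (x, false) (ind (box d t) r t 0) ω|))
        ≤ p * Ex (par (box d t) p b) (fun ω => |D (x, false) (ind (box d t) r t 0) ω|) := by
      rw [one_mul]
      apply mul_le_mul_of_nonneg_right _ hIA
      nlinarith
    linarith
  linarith

/-- Russo's formula for `Psi`. -/
theorem Psi_deriv (hru : P_russo) (d r t : ℕ) {P B : ℝ → ℝ} {P' B' u : ℝ}
    (hP : HasDerivAt P P' u) (hB : HasDerivAt B B' u) :
    HasDerivAt (fun v => Psi d r t (P v) (B v))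
      (P' * SA d r t (P u) (B u) - B' * SB d r t (P u) (B u)) u := by
  classical
  have h := hru (box d t × Bool) (fun v => par (box d t) (P v) (B v))
    (fun i => if i.2 then B' else P') u (ind (box d t) r t 0) (fun i => by
      unfold par
      rcases i with ⟨x, c⟩
      cases c
      · simpa using hP
      · simpa using hB)
  have e : ∑ i : box d t × Bool, (if i.2 then B' else P') *
      Ex (par (box d t) (P u) (B u)) (D i (ind (box d t) r t 0))
      = P' * SA d r t (P u) (B u) - B' * SB d r t (P u) (B u) := by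
    rw [Fintype.sum_prod_type]
    unfold SA SB
    rw [Finset.mul_sum, Finset.mul_sum, ← Finset.sum_sub_distrib]
    apply Finset.sum_congr rfl
    intro x _
    rw [Fintype.sum_bool]
    have e1 : (fun ω => |D (x, false) (ind (box d t) r t 0) ω|)
        = D (x, false) (ind (box d t) r t 0) := by
      funext ω
      exact abs_of_nonneg (D_false x ω)
    have e2 : (fun ω => |D (x, true) (ind (box d t) r t 0) ω|)
        = fun ω => -1 * D (x, true) (ind (box d t) r t 0) ω := by
      funext ω
      rw [abs_of_nonpos (D_true x ω)]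
      ring
    rw [e1, e2, Ex_mul]
    simp only [if_true, Bool.false_eq_true, if_false]
    ring
  rw [e] at h
  exact h

end Pool.Agent.W826.PB
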