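import Pool.Agent.W826.PB.Fin
set_option autoImplicit false

/-! Mean-field lower bound for `phi` below `q_c` (MP_c3c6c8_pr). -/

namespace Pool.Agent.W826.PB
open Finset MeasureTheory Filter Topology

theorem calc2 (ψ ψ' : ℝ → ℝ) (o : ℝ) (ho : 0 < o) (hpos : ∀ s, 0 ≤ s → 0 < ψ s)
    (hd : ∀ s, 0 ≤ s → HasDerivAt ψ (ψ' s) s) (h0 : ψ 0 < 1 / (1 + 1 / o))
    (hb : ∀ s, 0 ≤ s → ψ s ≤ 1 / (1 + Real.exp s / o) → ψ' s ≤ -(ψ s * (1 - ψ s))) :
    ∀ s, 0 ≤ s → ψ s ≤ 1 / (1 + Real.exp s / o) := by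
  intro S hS
  have equiv : ∀ s, 0 ≤ s → (-((ψ s)⁻¹ - 1) * Real.exp (-s) ≤ -(1 / o) →
      ψ s ≤ 1 / (1 + Real.exp s / o)) := by
    intro s hs h
    have h1 : Real.exp (-s) * Real.exp s = 1 := by rw [← Real.exp_add]; simp
    have h2 := Real.exp_pos s
    have h3 : Real.exp s / o ≤ (ψ s)⁻¹ - 1 := by
      have h4 : 1 / o ≤ ((ψ s)⁻¹ - 1) * Real.exp (-s) := by linarith
      have h5 := mul_le_mul_of_nonneg_right h4 h2.le
      have e1 : ((ψ s)⁻¹ - 1) * Real.exp (-s) * Real.exp s = (ψ s)⁻¹ - 1 := by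
        rw [mul_assoc, h1, mul_one]
      have e2 : 1 / o * Real.exp s = Real.exp s / o := by ring
      rw [e1, e2] at h5
      exact h5
    have h6 : 1 + Real.exp s / o ≤ (ψ s)⁻¹ := by linarith
    have h7 : 0 < 1 + Real.exp s / o := by positivity
    rw [one_div]
    exact (le_inv_comm₀ h7 (hpos s hs)).mp h6
  have h00 : -((ψ 0)⁻¹ - 1) * Real.exp (-(0 : ℝ)) < -(1 / o) := by
    have h7 : 0 < 1 + 1 / o := by positivity
    have h8 : 1 + 1 / o < (ψ 0)⁻¹ := by
      rw [one_div] at h0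
      exact (lt_inv_comm₀ (hpos 0 le_rfl) h7).mp h0
    simp only [neg_zero, Real.exp_zero, mul_one]
    linarith
  set f : ℝ → ℝ := fun s => -((ψ s)⁻¹ - 1) * Real.exp (-s) with hf
  have hfd : ∀ s, 0 ≤ s → HasDerivAt f
      (ψ' s / (ψ s) ^ 2 * Real.exp (-s) + -((ψ s)⁻¹ - 1) * (Real.exp (-s) * (-1))) s := by
    intro s hs
    have h1 := (((hd s hs).inv (hpos s hs).ne').sub_const 1).neg
    have h2 := (hasDerivAt_neg s).exp
    have h3 := h1.mul h2
    have e : ψ' s / (ψ s) ^ 2 = -(-ψ' s / (ψ s) ^ 2) := by ring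
    rw [e]
    exact h3
  set δ : ℝ := (-(1 / o) - f 0) / (S + 1) with hδ
  have hS1 : 0 < S + 1 := by linarith
  have hδp : 0 < δ := div_pos (by have := h00; simp only [hf]; linarith) hS1
  have hBle : ∀ x, 0 ≤ x → x ≤ S → f 0 + δ * x ≤ -(1 / o) := by
    intro x hx hxS
    have h1 : δ * (S + 1) = -(1 / o) - f 0 := div_mul_cancel₀ _ hS1.ne'
    have h2 : δ * x ≤ δ * (S + 1) := mul_le_mul_of_nonneg_left (by linarith) hδp.le
    linarith
  have hmain : f S ≤ f 0 + δ * S := by
    refine image_le_of_deriv_right_lt_deriv_boundary (f := f)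
      (f' := fun s => ψ' s / (ψ s) ^ 2 * Real.exp (-s) + -((ψ s)⁻¹ - 1) * (Real.exp (-s) * (-1)))
      (B := fun x => f 0 + δ * x) (B' := fun _ => δ) (a := 0) (b := S)
      (fun x hx => (hfd x hx.1).continuousAt.continuousWithinAt)
      (fun x hx => (hfd x hx.1).hasDerivWithinAt) (by simp) ?_ ?_ ⟨hS, le_rfl⟩
    · intro x
      have h := ((hasDerivAt_id x).const_mul δ).const_add (f 0)
      simpa using h
    · intro x hx hxe
      have hle : ψ x ≤ 1 / (1 + Real.exp x / o) :=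
        equiv x hx.1 (by
          have h1 := hBle x hx.1 hx.2.le
          simp only [hf] at hxe h1 ⊢
          linarith)
      have h1 := hb x hx.1 hle
      have hp := hpos x hx.1
      have hE := Real.exp_pos (-x)
      have h2 : ψ' x / (ψ x) ^ 2 + ((ψ x)⁻¹ - 1) ≤ 0 := by
        have e : ψ' x / (ψ x) ^ 2 + ((ψ x)⁻¹ - 1) = (ψ' x + ψ x * (1 - ψ x)) / (ψ x) ^ 2 := by
          field_simp
        rw [e]
        exact div_nonpos_of_nonpos_of_nonneg (by linarith) (by positivity)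
      have h3 : ψ' x / (ψ x) ^ 2 * Real.exp (-x) + -((ψ x)⁻¹ - 1) * (Real.exp (-x) * (-1))
          = (ψ' x / (ψ x) ^ 2 + ((ψ x)⁻¹ - 1)) * Real.exp (-x) := by ring
      rw [h3]
      exact lt_of_le_of_lt (mul_nonpos_of_nonpos_of_nonneg h2 hE.le) hδp
  exact equiv S hS (hmain.trans (hBle S hS le_rfl))

theorem path_bound2 (hbr : P_bridge) (hloc : P_local) (htr : P_trans) (hru : P_russo)
    (d r t : ℕ) {p0 b0 o q : ℝ} (hp0 : 0 < p0) (hp1 : p0 ≤ 1) (hb0 : 0 ≤ b0)
    (ho : 0 < o) (hq : b0 * (1 + o) ≤ q) (hq1 : q < 1)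
    (h0 : Psi d r t p0 b0 < 1 / (1 + 1 / o)) {u : ℝ} (hu : 0 ≤ u) :
    Psi d r t (p0 * Real.exp (-u)) q ≤ o * Real.exp (-u) := by
  set P : ℝ → ℝ := fun v => p0 * Real.exp (-v) with hPdef
  set g : ℝ → ℝ := fun v => 1 / (1 + Real.exp v / o) with hgdef
  set B : ℝ → ℝ := fun v => b0 * (1 + o) / (1 + o * Real.exp (-v)) with hBdef
  have hden : ∀ v, 0 < 1 + o * Real.exp (-v) := fun v => by
    have := Real.exp_pos (-v)
    positivity
  have hP : ∀ v, HasDerivAt P (-(P v)) v := by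
    intro v
    have h := ((hasDerivAt_neg v).exp).const_mul p0
    have e : p0 * (Real.exp (-v) * -1) = -(P v) := by simp only [hPdef]; ring
    rw [e] at h
    exact h
  have hB : ∀ v, HasDerivAt B (B v * g v) v := by
    intro v
    have h1 : HasDerivAt (fun w : ℝ => 1 + o * Real.exp (-w)) (o * (Real.exp (-v) * -1)) v :=
      (((hasDerivAt_neg v).exp).const_mul o).const_add 1
    have h2 := (hasDerivAt_const v (b0 * (1 + o))).div h1 (hden v).ne'
    have e : B v * g v = (0 * (1 + o * Real.exp (-v)) -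
        b0 * (1 + o) * (o * (Real.exp (-v) * -1))) / (1 + o * Real.exp (-v)) ^ 2 := by
      simp only [hBdef, hgdef]
      have h3 : Real.exp v = (Real.exp (-v))⁻¹ := by rw [Real.exp_neg, inv_inv]
      have h4 := Real.exp_pos (-v)
      have h5 := hden v
      have h6 : 1 / (1 + Real.exp v / o) = o * Real.exp (-v) / (1 + o * Real.exp (-v)) := by
        rw [h3]
        field_simp
        ring
      rw [h6]
      field_simp
      ring
    rw [e]
    exact h2
  have hPr : ∀ v, 0 ≤ v → 0 < P v ∧ P v ≤ 1 := by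
    intro v hv
    have h1 : Real.exp (-v) ≤ 1 := Real.exp_le_one_iff.mpr (by linarith)
    have h2 := Real.exp_pos (-v)
    refine ⟨mul_pos hp0 h2, ?_⟩
    calc p0 * Real.exp (-v) ≤ 1 * 1 := mul_le_mul hp1 h1 h2.le (by norm_num)
      _ = 1 := one_mul 1
  have hBr : ∀ v, 0 ≤ v → 0 ≤ B v ∧ B v ≤ q := by
    intro v hv
    have h2 := Real.exp_pos (-v)
    constructor
    · exact div_nonneg (by positivity) (hden v).le
    · refine le_trans ?_ hq
      simp only [hBdef]
      apply div_le_self (by positivity)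
      have : 0 < o * Real.exp (-v) := by positivity
      linarith
  have hψ : ∀ v, HasDerivAt (fun w => Psi d r t (P w) (B w))
      (-(P v) * SA d r t (P v) (B v) - B v * g v * SB d r t (P v) (B v)) v :=
    fun v => Psi_deriv hru d r t (hP v) (hB v)
  have key := calc2 (fun w => Psi d r t (P w) (B w))
    (fun v => -(P v) * SA d r t (P v) (B v) - B v * g v * SB d r t (P v) (B v)) o ho
    (fun v hv => lt_of_lt_of_le (hPr v hv).1 (Psi_ge d r t (hPr v hv).1.le (hPr v hv).2
      (hBr v hv).1 ((hBr v hv).2.trans hq1.le)))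
    (fun v _ => hψ v)
    (by
      have e1 : P 0 = p0 := by simp [hPdef]
      have e2 : B 0 = b0 := by
        simp only [hBdef, neg_zero, Real.exp_zero, mul_one]
        have : (1 + o) ≠ 0 := by positivity
        field_simp
      simp only [e1, e2]
      exact h0)
    (by
      intro v hv hle
      have hin := main_ineq hbr hloc htr d r t (hPr v hv).1.le (hPr v hv).2 (hBr v hv).1
        (lt_of_le_of_lt (hBr v hv).2 hq1)
      have hSB := SB_nonneg d r t (hPr v hv).1.le (hPr v hv).2 (hBr v hv).1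
        ((hBr v hv).2.trans hq1.le)
      have h1 : B v * Psi d r t (P v) (B v) ≤ B v * g v :=
        mul_le_mul_of_nonneg_left hle (hBr v hv).1
      have h2 := mul_le_mul_of_nonneg_right h1 hSB
      linarith)
  have h := key u hu
  have hfin : 1 / (1 + Real.exp u / o) ≤ o * Real.exp (-u) := by
    have h4 := Real.exp_pos u
    rw [div_le_iff₀ (by positivity)]
    have e : Real.exp (-u) * Real.exp u = 1 := by rw [← Real.exp_add]; simp
    have e2 : o * Real.exp (-u) * (1 + Real.exp u / o) = o * Real.exp (-u) + 1 := by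
      field_simp
      rw [mul_add, e]
      ring
    rw [e2]
    have := Real.exp_pos (-u)
    have : 0 < o * Real.exp (-u) := by positivity
    linarith
  refine le_trans ?_ (h.trans hfin)
  exact Psi_anti hru d r t (hPr u hu).1.le (hPr u hu).2 (hBr u hu).1 (hBr u hu).2 hq1.le

theorem phi_nonneg (d r : ℕ) (p q : ℝ) : 0 ≤ phi d r p q := by
  unfold phi
  exact measureReal_nonneg

theorem mean_field (hbr : P_bridge) (hloc : P_local) (htr : P_trans) (hru : P_russo)
    (d r : ℕ) {p q : ℝ} (hq0 : 0 ≤ q) (hqq : q < qc d r) (hp : 0 < p) (hp1 : p < 1)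
    (hpq : p ≤ 1 - q) : 1 - q / ((1 - p) * qc d r) ≤ phi d r p q := by
  by_contra hcon
  push Not at hcon
  have hqc : 0 < qc d r := lt_of_le_of_lt hq0 hqq
  have h1p : 0 < 1 - p := by linarith
  set b0 : ℝ := q / (1 - p) with hb0def
  have hb0 : 0 ≤ b0 := div_nonneg hq0 h1p.le
  have hb01 : b0 ≤ 1 := by rw [hb0def, div_le_one h1p]; linarith
  have e0 : q / ((1 - p) * qc d r) = b0 / qc d r := by rw [hb0def, div_div]
  rw [e0] at hcon
  obtain ⟨ε, hε1, hε2⟩ := exists_between hcon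
  have hε0 : 0 < ε := lt_of_le_of_lt (phi_nonneg d r p q) hε1
  have hεlt : ε < 1 := by
    have : 0 ≤ b0 / qc d r := div_nonneg hb0 hqc.le
    linarith
  have h1ε : 0 < 1 - ε := by linarith
  set o : ℝ := ε / (1 - ε) with hodef
  have ho : 0 < o := div_pos hε0 h1ε
  have h1o : 1 + o = 1 / (1 - ε) := by rw [hodef]; field_simp; ring
  have hg0 : 1 / (1 + 1 / o) = ε := by rw [hodef]; field_simp; ring
  set q' : ℝ := b0 * (1 + o) with hq'def
  have hq'0 : 0 ≤ q' := by positivity
  have hbdd : BddBelow {q : ℝ | 0 ≤ q ∧ q ≤ 1 ∧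
      Tendsto (fun p => phi d r p q) (𝓝[Set.Ioc 0 (1 - q)] 0) (𝓝 0)} := ⟨0, fun x hx => hx.1⟩
  have hqc1 : qc d r ≤ 1 := by
    apply csInf_le hbdd
    refine ⟨by norm_num, le_rfl, ?_⟩
    simp
  have hq'c : q' < qc d r := by
    rw [hq'def, h1o, mul_one_div, div_lt_iff₀ h1ε]
    have h2 : b0 / qc d r < 1 - ε := by linarith
    rw [div_lt_iff₀ hqc] at h2
    linarith
  have hq'1 : q' < 1 := lt_of_lt_of_le hq'c hqc1
  have hstart : ∀ t, Psi d r t p b0 < 1 / (1 + 1 / o) := by
    intro t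
    rw [hg0]
    calc Psi d r t p b0 = phiT d r p (b0 * (1 - p)) t 0 :=
          Psi_eq hbr hloc d r t hp.le hp1.le hb0 hb01
      _ = phiT d r p q t 0 := by rw [hb0def, div_mul_cancel₀ _ h1p.ne']
      _ ≤ phi d r p q := phiT_le_phi d r p q t
      _ < ε := hε1
  have hup : ∀ s, 0 < s → s ≤ p → s ≤ 1 - q' → phi d r s q' ≤ o / p * s := by
    intro s hs hsp hsq
    have h1s : 0 < 1 - s := by linarith
    apply phi_le_of d r s q' (by positivity)
    intro t
    have hqd : q' ≤ q' / (1 - s) := by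
      rw [le_div_iff₀ h1s]
      nlinarith
    have hqd1 : q' / (1 - s) ≤ 1 := by
      rw [div_le_one h1s]
      linarith
    have e1 : phiT d r s q' t 0 = Psi d r t s (q' / (1 - s)) := by
      rw [Psi_eq hbr hloc d r t hs.le (by linarith) (div_nonneg hq'0 h1s.le) hqd1,
        div_mul_cancel₀ _ h1s.ne']
    have hu : 0 ≤ Real.log (p / s) := Real.log_nonneg ((one_le_div hs).mpr hsp)
    have hexp : Real.exp (-Real.log (p / s)) = s / p := by
      rw [Real.exp_neg, Real.exp_log (div_pos hp hs), inv_div]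
    have hpp : p * Real.exp (-Real.log (p / s)) = s := by
      rw [hexp]; field_simp
    have hpb := path_bound2 hbr hloc htr hru d r t hp hp1.le hb0 ho le_rfl hq'1 (hstart t) hu
    rw [hpp, hexp] at hpb
    calc phiT d r s q' t 0 = Psi d r t s (q' / (1 - s)) := e1
      _ ≤ Psi d r t s q' := Psi_anti hru d r t hs.le (by linarith) hq'0 hqd hqd1
      _ ≤ o * (s / p) := hpb
      _ = o / p * s := by ring
  have hmem : q' ∈ {q : ℝ | 0 ≤ q ∧ q ≤ 1 ∧
      Tendsto (fun p => phi d r p q) (𝓝[Set.Ioc 0 (1 - q)] 0) (𝓝 0)} := by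
    refine ⟨hq'0, hq'1.le, ?_⟩
    have h1q : 0 < 1 - q' := by linarith
    rw [nhdsWithin_Ioc_eq_nhdsGT h1q]
    have hlin : Tendsto (fun s : ℝ => o / p * s) (𝓝[>] 0) (𝓝 0) := by
      have : Tendsto (fun s : ℝ => o / p * s) (𝓝 0) (𝓝 (o / p * 0)) :=
        (continuous_const.mul continuous_id).tendsto 0
      rw [mul_zero] at this
      exact this.mono_left nhdsWithin_le_nhds
    refine tendsto_of_tendsto_of_tendsto_of_le_of_le' tendsto_const_nhds hlin ?_ ?_
    · exact Eventually.of_forall fun s => phi_nonneg d r s q'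
    · filter_upwards [Ioo_mem_nhdsGT (lt_min hp h1q)] with s hs
      exact hup s hs.1 (hs.2.le.trans (min_le_left _ _)) (hs.2.le.trans (min_le_right _ _))
  exact absurd (csInf_le hbdd hmem) (not_le.mpr hq'c)

end Pool.Agent.W826.PB
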