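import Pool.Agent.W826.PB.Def
set_option autoImplicit false

/-! The inequality of O'Donnell, Saks, Schramm and Servedio in the form needed for project PB. -/

namespace Pool.Agent.W826.PB
open Finset

variable {I : Type} [Fintype I] [DecidableEq I]

theorem wt_nonneg {s : I → ℝ} (hs : ∀ i, 0 ≤ s i ∧ s i ≤ 1) (ω : I → Bool) : 0 ≤ wt s ω := by
  unfold wt
  apply Finset.prod_nonneg
  intro i _
  split_ifs
  · exact (hs i).1
  · linarith [(hs i).2]

theorem sum_wt (s : I → ℝ) : ∑ ω : I → Bool, wt s ω = 1 := by
  unfold wt
  have h := Finset.prod_univ_sum (fun _ : I => (Finset.univ : Finset Bool))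
    (fun i b => if b then s i else 1 - s i)
  rw [Fintype.piFinset_univ] at h
  rw [← h]
  apply Finset.prod_eq_one
  intro i _
  simp

theorem Ex_const (s : I → ℝ) (c : ℝ) : Ex s (fun _ => c) = c := by
  unfold Ex
  rw [← Finset.sum_mul, sum_wt, one_mul]

theorem Ex_add (s : I → ℝ) (F G : (I → Bool) → ℝ) :
    Ex s (fun ω => F ω + G ω) = Ex s F + Ex s G := by
  unfold Ex
  rw [← Finset.sum_add_distrib]
  exact Finset.sum_congr rfl fun ω _ => by ring

theorem Ex_sub (s : I → ℝ) (F G : (I → Bool) → ℝ) :
    Ex s (fun ω => F ω - G ω) = Ex s F - Ex s G := by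
  unfold Ex
  rw [← Finset.sum_sub_distrib]
  exact Finset.sum_congr rfl fun ω _ => by ring

theorem Ex_mul (s : I → ℝ) (c : ℝ) (F : (I → Bool) → ℝ) :
    Ex s (fun ω => c * F ω) = c * Ex s F := by
  unfold Ex
  rw [Finset.mul_sum]
  exact Finset.sum_congr rfl fun ω _ => by ring

theorem Ex_mono {s : I → ℝ} (hs : ∀ i, 0 ≤ s i ∧ s i ≤ 1) {F G : (I → Bool) → ℝ}
    (h : ∀ ω, F ω ≤ G ω) : Ex s F ≤ Ex s G := by
  unfold Ex
  exact Finset.sum_le_sum fun ω _ => mul_le_mul_of_nonneg_left (h ω) (wt_nonneg hs ω)

theorem Ex_nonneg {s : I → ℝ} (hs : ∀ i, 0 ≤ s i ∧ s i ≤ 1) {F : (I → Bool) → ℝ}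
    (h : ∀ ω, 0 ≤ F ω) : 0 ≤ Ex s F := by
  have := Ex_mono hs (F := fun _ => 0) (G := F) h
  rwa [Ex_const] at this

theorem abs_Ex_le {s : I → ℝ} (hs : ∀ i, 0 ≤ s i ∧ s i ≤ 1) (F : (I → Bool) → ℝ) :
    |Ex s F| ≤ Ex s (fun ω => |F ω|) := by
  rw [abs_le]
  constructor
  · have := Ex_mono hs (F := fun ω => -1 * |F ω|) (G := F) (fun ω => by
      linarith [neg_abs_le (F ω)])
    rw [Ex_mul] at this
    linarith
  · exact Ex_mono hs fun ω => le_abs_self _

/-- Flip the bit `i`. -/
def flip (i : I) (ω : I → Bool) : I → Bool := Function.update ω i (!ω i)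

theorem flip_flip (i : I) : Function.Involutive (flip (I := I) i) := by
  intro ω
  unfold flip
  simp

theorem sum_flip (i : I) (h : (I → Bool) → ℝ) : ∑ ω, h (flip i ω) = ∑ ω, h ω :=
  Equiv.sum_comp (flip_flip i).toPerm h

theorem wt_erase (s : I → ℝ) (i : I) (ω : I → Bool) :
    wt s ω = (if ω i then s i else 1 - s i) *
      ∏ j ∈ Finset.univ.erase i, (if ω j then s j else 1 - s j) := by
  unfold wt
  exact (Finset.mul_prod_erase Finset.univ _ (Finset.mem_univ i)).symm

theorem wt_upd (s : I → ℝ) (i : I) (ω : I → Bool) (b : Bool) :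
    wt s (Function.update ω i b) = (if b then s i else 1 - s i) *
      ∏ j ∈ Finset.univ.erase i, (if ω j then s j else 1 - s j) := by
  rw [wt_erase s i]
  congr 1
  · simp
  · apply Finset.prod_congr rfl
    intro j hj
    rw [Function.update_of_ne (Finset.ne_of_mem_erase hj)]

theorem Ex_split (s : I → ℝ) (i : I) (F : (I → Bool) → ℝ) :
    Ex s F = (1 - s i) * Ex s (fun ω => F (Function.update ω i false))
      + s i * Ex s (fun ω => F (Function.update ω i true)) := by
  have key : ∀ G : (I → Bool) → ℝ, 2 * Ex s G =
      ∑ ω, (wt s (Function.update ω i false) * G (Function.update ω i false)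
        + wt s (Function.update ω i true) * G (Function.update ω i true)) := by
    intro G
    have h1 : 2 * Ex s G = ∑ ω, (wt s ω * G ω + wt s (flip i ω) * G (flip i ω)) := by
      rw [Finset.sum_add_distrib, sum_flip i (fun ω => wt s ω * G ω)]
      unfold Ex
      ring
    rw [h1]
    apply Finset.sum_congr rfl
    intro ω _
    unfold flip
    cases hb : ω i
    · have : Function.update ω i false = ω := by rw [← hb]; simp
      rw [this]
      simp
    · have : Function.update ω i true = ω := by rw [← hb]; simp
      rw [this]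
      simp only [Bool.not_true]
      ring
  rw [← Ex_mul, ← Ex_mul, ← Ex_add]
  have h2 : 2 * Ex s F = 2 * Ex s (fun ω => (1 - s i) * F (Function.update ω i false)
      + s i * F (Function.update ω i true)) := by
    rw [key, key]
    apply Finset.sum_congr rfl
    intro ω _
    simp only [wt_upd, Function.update_idem]
    simp only [if_true, Bool.false_eq_true, if_false]
    ring
  linarith

theorem pw_insert (S : Finset I) (σ ω : I → Bool) {i : I} (hi : i ∉ S) (b : Bool) :
    (insert i S).piecewise (Function.update σ i b) ω = S.piecewise σ (Function.update ω i b) := by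
  funext j
  by_cases hj : j = i
  · subst hj
    simp [Finset.piecewise, hi]
  · by_cases hS : j ∈ S
    · simp [Finset.piecewise, hS, hj]
    · simp [Finset.piecewise, hS, hj]

theorem osss_cov {s : I → ℝ} (hs : ∀ i, 0 ≤ s i ∧ s i ≤ 1) {f : (I → Bool) → ℝ}
    (hf : ∀ ω, 0 ≤ f ω ∧ f ω ≤ 1) {V : I → (I → Bool) → ℝ} (hV : ∀ i ω, 0 ≤ V i ω)
    (str : ∀ (S : Finset I) (σ : I → Bool),
      (∀ ω ω' : I → Bool, f (S.piecewise σ ω) = f (S.piecewise σ ω')) ∨
      ∃ i ∉ S, 1 ≤ Ex s (fun ω => V i (S.piecewise σ ω))) :
    ∀ (n : ℕ) (S : Finset I), (Finset.univ \ S).card = n → ∀ (σ : I → Bool) (g : (I → Bool) → ℝ),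
      |Ex s (fun ω => f (S.piecewise σ ω) * g ω) - Ex s (fun ω => f (S.piecewise σ ω)) * Ex s g|
        ≤ ∑ j ∈ Finset.univ \ S, Ex s (fun ω => V j (S.piecewise σ ω)) *
          (s j * (1 - s j) * Ex s (fun ω => |D j g ω|)) := by
  have hInf : ∀ j (g : (I → Bool) → ℝ), 0 ≤ s j * (1 - s j) * Ex s (fun ω => |D j g ω|) := by
    intro j g
    apply mul_nonneg (mul_nonneg (hs j).1 (by linarith [(hs j).2]))
    exact Ex_nonneg hs fun ω => abs_nonneg _
  intro n
  induction n with
  | zero =>
    intro S hS σ g
    rcases str S σ with h | ⟨i, hi, _⟩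
    · have hc : ∀ ω, f (S.piecewise σ ω) = f (S.piecewise σ (fun _ => false)) := fun ω => h _ _
      simp only [hc]
      rw [Ex_mul, Ex_const, sub_self, abs_zero]
      exact Finset.sum_nonneg fun j _ => mul_nonneg (Ex_nonneg hs fun ω => hV _ _) (hInf _ _)
    · exfalso
      rw [Finset.card_eq_zero] at hS
      have : i ∈ Finset.univ \ S := by simp [hi]
      rw [hS] at this
      simp at this
  | succ n ih =>
    intro S hS σ g
    rcases str S σ with h | ⟨i, hi, hVi⟩
    · have hc : ∀ ω, f (S.piecewise σ ω) = f (S.piecewise σ (fun _ => false)) := fun ω => h _ _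
      simp only [hc]
      rw [Ex_mul, Ex_const, sub_self, abs_zero]
      exact Finset.sum_nonneg fun j _ => mul_nonneg (Ex_nonneg hs fun ω => hV _ _) (hInf _ _)
    · have hcard : (Finset.univ \ insert i S).card = n := by
        have h1 : Finset.univ \ S = insert i (Finset.univ \ insert i S) := by
          ext j
          simp only [Finset.mem_sdiff, Finset.mem_univ, true_and, Finset.mem_insert, not_or]
          constructor
          · intro hj
            by_cases hji : j = i
            · exact Or.inl hji
            · exact Or.inr ⟨hji, hj⟩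
          · rintro (rfl | h)
            · exact hi
            · exact h.2
        rw [h1, Finset.card_insert_of_notMem (by simp)] at hS
        omega
      have hdec : Finset.univ \ S = insert i (Finset.univ \ insert i S) := by
        ext j
        simp only [Finset.mem_sdiff, Finset.mem_univ, true_and, Finset.mem_insert, not_or]
        constructor
        · intro hj
          by_cases hji : j = i
          · exact Or.inl hji
          · exact Or.inr ⟨hji, hj⟩
        · rintro (rfl | h)
          · exact hi
          · exact h.2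
      set gb : (I → Bool) → ℝ := fun ω =>
        (1 - s i) * g (Function.update ω i false) + s i * g (Function.update ω i true) with hgb
      -- the two restricted functions
      have ih0 := ih (insert i S) hcard (Function.update σ i false) gb
      have ih1 := ih (insert i S) hcard (Function.update σ i true) gb
      simp only [pw_insert S σ _ hi] at ih0 ih1
      set F : (I → Bool) → ℝ := fun ω => f (S.piecewise σ ω) with hF
      have hF01 : ∀ ω, 0 ≤ F ω ∧ F ω ≤ 1 := fun ω => hf _
      have e1 : Ex s (fun ω => F ω * g ω) =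
          (1 - s i) * Ex s (fun ω => F (Function.update ω i false) * gb ω)
          + s i * Ex s (fun ω => F (Function.update ω i true) * gb ω)
          + s i * (1 - s i) * Ex s (fun ω => (F (Function.update ω i true)
              - F (Function.update ω i false)) * D i g ω) := by
        rw [Ex_split s i]
        rw [← Ex_mul, ← Ex_mul, ← Ex_mul, ← Ex_mul, ← Ex_mul, ← Ex_add, ← Ex_add, ← Ex_add]
        congr 1
        funext ω
        simp only [hgb, D]
        ring
      have e2 : Ex s F = (1 - s i) * Ex s (fun ω => F (Function.update ω i false))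
          + s i * Ex s (fun ω => F (Function.update ω i true)) := Ex_split s i F
      have e3 : Ex s gb = Ex s g := by
        rw [Ex_split s i g, ← Ex_mul, ← Ex_mul, ← Ex_add]
      have e4 : ∀ j ∈ Finset.univ \ insert i S,
          Ex s (fun ω => |D j gb ω|) ≤ Ex s (fun ω => |D j g ω|) := by
        intro j hj
        have hji : j ≠ i := by
          rintro rfl
          simp at hj
        rw [Ex_split s i (fun ω => |D j g ω|), ← Ex_mul, ← Ex_mul, ← Ex_add]
        apply Ex_mono hs
        intro ω
        have : D j gb ω = (1 - s i) * D j g (Function.update ω i false)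
            + s i * D j g (Function.update ω i true) := by
          simp only [D, hgb]
          rw [Function.update_comm hji, Function.update_comm hji, Function.update_comm hji,
            Function.update_comm hji]
          ring
        rw [this]
        calc _ ≤ |(1 - s i) * D j g (Function.update ω i false)|
              + |s i * D j g (Function.update ω i true)| := abs_add_le _ _
          _ = _ := by
            rw [abs_mul, abs_mul, abs_of_nonneg (hs i).1,
              abs_of_nonneg (by linarith [(hs i).2] : (0:ℝ) ≤ 1 - s i)]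
      have e5 : ∀ j, Ex s (fun ω => V j (S.piecewise σ ω)) =
          (1 - s i) * Ex s (fun ω => V j (S.piecewise σ (Function.update ω i false)))
          + s i * Ex s (fun ω => V j (S.piecewise σ (Function.update ω i true))) :=
        fun j => Ex_split s i _
      have e6 : |Ex s (fun ω => (F (Function.update ω i true)
              - F (Function.update ω i false)) * D i g ω)| ≤ Ex s (fun ω => |D i g ω|) := by
        refine (abs_Ex_le hs _).trans (Ex_mono hs fun ω => ?_)
        rw [abs_mul]
        have : |F (Function.update ω i true) - F (Function.update ω i false)| ≤ 1 := by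
          rw [abs_le]
          have h1 := hF01 (Function.update ω i true)
          have h0 := hF01 (Function.update ω i false)
          constructor <;> linarith
        calc _ ≤ 1 * |D i g ω| := mul_le_mul_of_nonneg_right this (abs_nonneg _)
          _ = _ := one_mul _
      rw [hdec, Finset.sum_insert (by simp)]
      have hs0 := (hs i).1
      have hs1 : 0 ≤ 1 - s i := by linarith [(hs i).2]
      set C0 := Ex s (fun ω => F (Function.update ω i false) * gb ω)
        - Ex s (fun ω => F (Function.update ω i false)) * Ex s gb with hC0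
      set C1 := Ex s (fun ω => F (Function.update ω i true) * gb ω)
        - Ex s (fun ω => F (Function.update ω i true)) * Ex s gb with hC1
      set E0 := Ex s (fun ω => (F (Function.update ω i true)
              - F (Function.update ω i false)) * D i g ω) with hE0
      have hcov : Ex s (fun ω => F ω * g ω) - Ex s F * Ex s g
          = (1 - s i) * C0 + s i * C1 + s i * (1 - s i) * E0 := by
        rw [e1, e2, hC0, hC1, e3]
        ring
      rw [hcov]
      have hb0 : |C0| ≤ ∑ j ∈ Finset.univ \ insert i S,
          Ex s (fun ω => V j (S.piecewise σ (Function.update ω i false))) *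
            (s j * (1 - s j) * Ex s (fun ω => |D j g ω|)) := by
        refine ih0.trans (Finset.sum_le_sum fun j hj => ?_)
        apply mul_le_mul_of_nonneg_left _ (Ex_nonneg hs fun ω => hV _ _)
        apply mul_le_mul_of_nonneg_left (e4 j hj)
        exact mul_nonneg (hs j).1 (by linarith [(hs j).2])
      have hb1 : |C1| ≤ ∑ j ∈ Finset.univ \ insert i S,
          Ex s (fun ω => V j (S.piecewise σ (Function.update ω i true))) *
            (s j * (1 - s j) * Ex s (fun ω => |D j g ω|)) := by
        refine ih1.trans (Finset.sum_le_sum fun j hj => ?_)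
        apply mul_le_mul_of_nonneg_left _ (Ex_nonneg hs fun ω => hV _ _)
        apply mul_le_mul_of_nonneg_left (e4 j hj)
        exact mul_nonneg (hs j).1 (by linarith [(hs j).2])
      have hsum : ∑ j ∈ Finset.univ \ insert i S, Ex s (fun ω => V j (S.piecewise σ ω)) *
            (s j * (1 - s j) * Ex s (fun ω => |D j g ω|))
          = (1 - s i) * (∑ j ∈ Finset.univ \ insert i S,
              Ex s (fun ω => V j (S.piecewise σ (Function.update ω i false))) *
                (s j * (1 - s j) * Ex s (fun ω => |D j g ω|)))
            + s i * (∑ j ∈ Finset.univ \ insert i S,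
              Ex s (fun ω => V j (S.piecewise σ (Function.update ω i true))) *
                (s j * (1 - s j) * Ex s (fun ω => |D j g ω|))) := by
        rw [Finset.mul_sum, Finset.mul_sum, ← Finset.sum_add_distrib]
        apply Finset.sum_congr rfl
        intro j _
        rw [e5 j]
        ring
      rw [hsum]
      have t0 := mul_le_mul_of_nonneg_left hb0 hs1
      have t1 := mul_le_mul_of_nonneg_left hb1 hs0
      have t2 : s i * (1 - s i) * |E0| ≤ Ex s (fun ω => V i (S.piecewise σ ω)) *
          (s i * (1 - s i) * Ex s (fun ω => |D i g ω|)) := by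
        have := hInf i g
        have h3 : s i * (1 - s i) * |E0| ≤ s i * (1 - s i) * Ex s (fun ω => |D i g ω|) :=
          mul_le_mul_of_nonneg_left e6 (mul_nonneg hs0 hs1)
        calc _ ≤ 1 * (s i * (1 - s i) * Ex s (fun ω => |D i g ω|)) := by rw [one_mul]; exact h3
          _ ≤ _ := mul_le_mul_of_nonneg_right hVi this
      have t3 : |(1 - s i) * C0 + s i * C1 + s i * (1 - s i) * E0|
          ≤ (1 - s i) * |C0| + s i * |C1| + s i * (1 - s i) * |E0| := by
        refine (abs_add_le _ _).trans (add_le_add ((abs_add_le _ _).trans (add_le_add ?_ ?_)) ?_)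
        · rw [abs_mul, abs_of_nonneg hs1]
        · rw [abs_mul, abs_of_nonneg hs0]
        · rw [abs_mul, abs_of_nonneg (mul_nonneg hs0 hs1)]
      linarith

theorem osss {s : I → ℝ} (hs : ∀ i, 0 ≤ s i ∧ s i ≤ 1) {f : (I → Bool) → ℝ}
    (hf : ∀ ω, 0 ≤ f ω ∧ f ω ≤ 1) {V : I → (I → Bool) → ℝ} (hV : ∀ i ω, 0 ≤ V i ω)
    (str : ∀ (S : Finset I) (σ : I → Bool),
      (∀ ω ω' : I → Bool, f (S.piecewise σ ω) = f (S.piecewise σ ω')) ∨
      ∃ i ∉ S, 1 ≤ Ex s (fun ω => V i (S.piecewise σ ω))) :
    Ex s (fun ω => f ω * f ω) - Ex s f * Ex s f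
      ≤ ∑ j, Ex s (V j) * (s j * (1 - s j) * Ex s (fun ω => |D j f ω|)) := by
  have h := osss_cov hs hf hV str _ ∅ rfl (fun _ => false) f
  simp only [Finset.piecewise_empty, Finset.sdiff_empty] at h
  exact (le_abs_self _).trans h

end Pool.Agent.W826.PB
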