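import Pool.Agent.W826.PB.Osss
set_option autoImplicit false

/-! The exploration of polluted bootstrap percolation: reveal all seeds, then the closed bit of a
site as soon as the site has `r` occupied neighbours. -/

namespace Pool.Agent.W826.PB
open Finset

variable {d : ℕ}

theorem cnt_mono {O O' : Set (Fin d → ℤ)} (h : O ⊆ O') (x : Fin d → ℤ) : cnt O x ≤ cnt O' x := by
  unfold cnt
  exact Finset.card_le_card fun j hj => by
    simp only [Finset.mem_filter, Finset.mem_univ, true_and] at hj ⊢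
    exact h hj

theorem mem_occ_succ {r : ℕ} {ξ : (Fin d → ℤ) → St} {t : ℕ} {x : Fin d → ℤ} :
    x ∈ occ r ξ (t + 1) ↔ x ∈ occ r ξ t ∨ (ξ x = St.emp ∧ r ≤ cnt (occ r ξ t) x) := by
  rfl

theorem mem_occ_zero {r : ℕ} {ξ : (Fin d → ℤ) → St} {x : Fin d → ℤ} :
    x ∈ occ r ξ 0 ↔ ξ x = St.occ := by
  rfl

theorem occ_mono_time {r : ℕ} {ξ : (Fin d → ℤ) → St} {t u : ℕ} (h : t ≤ u) :
    occ r ξ t ⊆ occ r ξ u := by
  induction u, h using Nat.le_induction with
  | base => exact fun _ h => h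
  | succ u _ ih => exact fun x hx => mem_occ_succ.mpr (Or.inl (ih hx))

/-- `ξ` is below `η`. -/
def Below (ξ η : (Fin d → ℤ) → St) : Prop :=
  ∀ x, (ξ x = St.occ → η x = St.occ) ∧ (ξ x = St.emp → η x ≠ St.clo)

theorem occ_mono {r : ℕ} {ξ η : (Fin d → ℤ) → St} (h : Below ξ η) (t : ℕ) :
    occ r ξ t ⊆ occ r η t := by
  induction t with
  | zero => exact fun x hx => (h x).1 hx
  | succ t ih =>
    intro x hx
    rcases mem_occ_succ.mp hx with hx | ⟨h1, h2⟩
    · exact mem_occ_succ.mpr (Or.inl (ih hx))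
    · have h3 := (h x).2 h1
      cases hη : η x with
      | occ => exact occ_mono_time (Nat.zero_le _) (mem_occ_zero.mpr hη)
      | clo => exact absurd hη h3
      | emp => exact mem_occ_succ.mpr (Or.inr ⟨hη, h2.trans (cnt_mono ih x)⟩)

theorem ext_mem {Λ : Finset (Fin d → ℤ)} (ω : Λ × Bool → Bool) {x : Fin d → ℤ} (h : x ∈ Λ) :
    ext Λ ω x = dec (ω (⟨x, h⟩, false)) (ω (⟨x, h⟩, true)) := by
  unfold ext
  simp [h]

theorem ext_not {Λ : Finset (Fin d → ℤ)} (ω : Λ × Bool → Bool) {x : Fin d → ℤ} (h : x ∉ Λ) :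
    ext Λ ω x = St.clo := by
  unfold ext
  simp [h]

theorem dec_occ {a b : Bool} : dec a b = St.occ ↔ a = true := by
  cases a <;> cases b <;> simp [dec]

theorem dec_emp {a b : Bool} : dec a b = St.emp ↔ a = false ∧ b = false := by
  cases a <;> cases b <;> simp [dec]

theorem dec_clo {a b : Bool} : dec a b = St.clo ↔ a = false ∧ b = true := by
  cases a <;> cases b <;> simp [dec]

theorem ind_eq {Λ : Finset (Fin d → ℤ)} {r t : ℕ} {y : Fin d → ℤ} {ω : Λ × Bool → Bool}
    (h : y ∈ occ r (ext Λ ω) t) : ind Λ r t y ω = 1 := by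
  unfold ind
  simp [h]

theorem ind_nonneg (Λ : Finset (Fin d → ℤ)) (r t : ℕ) (y : Fin d → ℤ) (ω : Λ × Bool → Bool) :
    0 ≤ ind Λ r t y ω ∧ ind Λ r t y ω ≤ 1 := by
  unfold ind
  split_ifs <;> norm_num

theorem ind_sq (Λ : Finset (Fin d → ℤ)) (r t : ℕ) (y : Fin d → ℤ) (ω : Λ × Bool → Bool) :
    ind Λ r t y ω * ind Λ r t y ω = ind Λ r t y ω := by
  unfold ind
  split_ifs <;> norm_num

/-- The witness functions. -/
noncomputable def VV (Λ : Finset (Fin d → ℤ)) (r t : ℕ) (b : ℝ) (i : Λ × Bool)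
    (ω : Λ × Bool → Bool) : ℝ :=
  if i.2 = false then 1 else (1 - b)⁻¹ * ind Λ r t i.1 ω

theorem par_ok (Λ : Finset (Fin d → ℤ)) {p b : ℝ} (hp0 : 0 ≤ p) (hp1 : p ≤ 1) (hb0 : 0 ≤ b)
    (hb1 : b ≤ 1) : ∀ i, 0 ≤ par Λ p b i ∧ par Λ p b i ≤ 1 := by
  intro i
  unfold par
  split_ifs
  · exact ⟨hb0, hb1⟩
  · exact ⟨hp0, hp1⟩

theorem strategy (Λ : Finset (Fin d → ℤ)) (r t : ℕ) {p b : ℝ} (hp0 : 0 ≤ p) (hp1 : p ≤ 1)
    (hb0 : 0 ≤ b) (hb1 : b < 1) (S : Finset (Λ × Bool)) (σ : Λ × Bool → Bool) :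
    (∀ ω ω' : Λ × Bool → Bool, ind Λ r t 0 (S.piecewise σ ω) = ind Λ r t 0 (S.piecewise σ ω')) ∨
      ∃ i ∉ S, 1 ≤ Ex (par Λ p b) (fun ω => VV Λ r t b i (S.piecewise σ ω)) := by
  classical
  have hs := par_ok Λ hp0 hp1 hb0 hb1.le
  by_cases hA : ∀ x : Λ, (x, false) ∈ S
  swap
  · push_neg at hA
    obtain ⟨x, hx⟩ := hA
    refine Or.inr ⟨(x, false), hx, ?_⟩
    simp only [VV, if_true]
    rw [Ex_const]
  set κ : Λ × Bool → Bool := S.piecewise σ (fun _ => true) with hκ
  have hAval : ∀ (x : Λ) (ω : Λ × Bool → Bool), S.piecewise σ ω (x, false) = κ (x, false) := by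
    intro x ω
    rw [hκ, Finset.piecewise_eq_of_mem _ _ _ (hA x), Finset.piecewise_eq_of_mem _ _ _ (hA x)]
  have hBval : ∀ (x : Λ) (ω : Λ × Bool → Bool), (x, true) ∈ S →
      S.piecewise σ ω (x, true) = κ (x, true) := by
    intro x ω h
    rw [hκ, Finset.piecewise_eq_of_mem _ _ _ h, Finset.piecewise_eq_of_mem _ _ _ h]
  have hBnot : ∀ (x : Λ), (x, true) ∉ S → κ (x, true) = true := by
    intro x h
    rw [hκ, Finset.piecewise_eq_of_notMem _ _ _ h]
  have hbelow : ∀ ω, Below (ext Λ κ) (ext Λ (S.piecewise σ ω)) := by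
    intro ω x
    by_cases hx : x ∈ Λ
    · rw [ext_mem _ hx, ext_mem _ hx]
      rw [hAval]
      constructor
      · intro h
        exact dec_occ.mpr (dec_occ.mp h)
      · intro h
        obtain ⟨h1, h2⟩ := dec_emp.mp h
        have hS : ((⟨x, hx⟩ : Λ), true) ∈ S := by
          by_contra hn
          rw [hBnot _ hn] at h2
          exact absurd h2 (by simp)
        rw [hBval _ _ hS, h1, h2]
        simp [dec]
    · rw [ext_not _ hx, ext_not _ hx]
      simp
  by_cases hB : ∃ y : Λ, (y, true) ∉ S ∧ κ (y, false) = false ∧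
      ∃ u < t, r ≤ cnt (occ r (ext Λ κ) u) y
  · obtain ⟨y, hyS, hyA, u, hu, hcnt⟩ := hB
    refine Or.inr ⟨(y, true), hyS, ?_⟩
    simp only [VV, Bool.true_eq_false, if_false]
    rw [Ex_mul]
    have h1b : 0 < 1 - b := by linarith
    have key : Ex (par Λ p b) (fun ω => if ω (y, true) = false then (1 : ℝ) else 0)
        ≤ Ex (par Λ p b) (fun ω => ind Λ r t y (S.piecewise σ ω)) := by
      apply Ex_mono hs
      intro ω
      split_ifs with hω
      · rw [ind_eq]
        have hy : ext Λ (S.piecewise σ ω) y = St.emp := by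
          rw [ext_mem _ y.2]
          apply dec_emp.mpr
          constructor
          · rw [hAval]; exact hyA
          · rw [Finset.piecewise_eq_of_notMem _ _ _ hyS]; exact hω
        apply occ_mono_time (show u + 1 ≤ t from hu)
        apply mem_occ_succ.mpr
        right
        exact ⟨hy, hcnt.trans (cnt_mono (occ_mono (hbelow ω) u) _)⟩
      · exact (ind_nonneg _ _ _ _ _).1
    have hval : Ex (par Λ p b) (fun ω => if ω (y, true) = false then (1 : ℝ) else 0) = 1 - b := by
      rw [Ex_split (par Λ p b) (y, true)]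
      simp only [Function.update_self, if_true, Bool.true_eq_false, if_false]
      rw [Ex_const, Ex_const]
      simp [par]
    rw [hval] at key
    calc (1 : ℝ) = (1 - b)⁻¹ * (1 - b) := by field_simp
      _ ≤ _ := mul_le_mul_of_nonneg_left key (inv_nonneg.mpr h1b.le)
  · left
    push_neg at hB
    have hocc : ∀ ω, ∀ u ≤ t, occ r (ext Λ (S.piecewise σ ω)) u = occ r (ext Λ κ) u := by
      intro ω u
      induction u with
      | zero =>
        intro _
        ext x
        rw [mem_occ_zero, mem_occ_zero]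
        by_cases hx : x ∈ Λ
        · rw [ext_mem _ hx, ext_mem _ hx, dec_occ, dec_occ, hAval]
        · rw [ext_not _ hx, ext_not _ hx]
      | succ u ih =>
        intro hu
        have ih' := ih (by omega)
        ext x
        rw [mem_occ_succ, mem_occ_succ, ih']
        apply or_congr_right
        constructor
        · rintro ⟨h1, h2⟩
          refine ⟨?_, h2⟩
          by_cases hx : x ∈ Λ
          · rw [ext_mem _ hx] at h1 ⊢
            obtain ⟨ha, hb⟩ := dec_emp.mp h1
            rw [hAval] at ha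
            by_cases hS : ((⟨x, hx⟩ : Λ), true) ∈ S
            · rw [hBval _ _ hS] at hb
              exact dec_emp.mpr ⟨ha, hb⟩
            · exact absurd h2 (not_le.mpr (hB ⟨x, hx⟩ hS ha u (by omega)))
          · rw [ext_not _ hx] at h1
            exact absurd h1 (by simp)
        · rintro ⟨h1, h2⟩
          refine ⟨?_, h2⟩
          by_cases hx : x ∈ Λ
          · rw [ext_mem _ hx] at h1 ⊢
            obtain ⟨ha, hb⟩ := dec_emp.mp h1
            by_cases hS : ((⟨x, hx⟩ : Λ), true) ∈ S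
            · rw [hAval, hBval _ _ hS]
              exact dec_emp.mpr ⟨ha, hb⟩
            · exact absurd h2 (not_le.mpr (hB ⟨x, hx⟩ hS ha u (by omega)))
          · rw [ext_not _ hx] at h1
            exact absurd h1 (by simp)
    intro ω ω'
    unfold ind
    rw [hocc ω t le_rfl, hocc ω' t le_rfl]

end Pool.Agent.W826.PB
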