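import Pool.Agent.W826.PB.MF
set_option autoImplicit false

/-! Sharpness and the zero-one law for polluted bootstrap percolation (MP_faaa3e_pr). -/

namespace Pool.Agent.W826.PB
open Finset MeasureTheory Filter Topology

theorem path_bound3 (hbr : P_bridge) (hloc : P_local) (htr : P_trans) (hru : P_russo)
    (d r t : ℕ) {p0 b0 o q : ℝ} (hp0 : 0 < p0) (hp1 : p0 ≤ 1) (hb0 : 0 ≤ b0)
    (ho : 0 < o) (hq : b0 * (1 + o) ≤ q) (hq1 : q < 1)
    (h0 : Psi d r t p0 b0 < 1 / (1 + 1 / o)) {u : ℝ} (hu : 0 ≤ u) :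
    Psi d r t (p0 * Real.exp (-u)) q ≤ 1 / (1 + Real.exp u / o) := by
  set P : ℝ → ℝ := fun v => p0 * Real.exp (-v) with hPdef
  set g : ℝ → ℝ := fun v => 1 / (1 + Real.exp v / o) with hgdef
  set B : ℝ → ℝ := fun v => b0 * (1 + o) / (1 + o * Real.exp (-v)) with hBdef
  have hden : ∀ v, 0 < 1 + o * Real.exp (-v) := fun v => by
    have := Real.exp_pos (-v)
    positivity
  have hP : ∀ v, HasDerivAt P (-(P v)) v := by
    intro v
    have h := ((hasDerivAt_neg v).exp).const_mul p0
    have e : p0 * (Real.exp (-v) * -1) = -(P v) := by simp only [hPdef]; ring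
    rw [e] at h
    exact h
  have hB : ∀ v, HasDerivAt B (B v * g v) v := by
    intro v
    have h1 : HasDerivAt (fun w : ℝ => 1 + o * Real.exp (-w)) (o * (Real.exp (-v) * -1)) v :=
      (((hasDerivAt_neg v).exp).const_mul o).const_add 1
    have h2 := (hasDerivAt_const v (b0 * (1 + o))).div h1 (hden v).ne'
    have e : B v * g v = (0 * (1 + o * Real.exp (-v)) -
        b0 * (1 + o) * (o * (Real.exp (-v) * -1))) / (1 + o * Real.exp (-v)) ^ 2 := by
      simp only [hBdef, hgdef]
      have h3 : Real.exp v = (Real.exp (-v))⁻¹ := by rw [Real.exp_neg, inv_inv]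
      have h4 := Real.exp_pos (-v)
      have h5 := hden v
      have h6 : 1 / (1 + Real.exp v / o) = o * Real.exp (-v) / (1 + o * Real.exp (-v)) := by
        rw [h3]
        field_simp
        ring
      rw [h6]
      field_simp
      ring
    rw [e]
    exact h2
  have hPr : ∀ v, 0 ≤ v → 0 < P v ∧ P v ≤ 1 := by
    intro v hv
    have h1 : Real.exp (-v) ≤ 1 := Real.exp_le_one_iff.mpr (by linarith)
    have h2 := Real.exp_pos (-v)
    refine ⟨mul_pos hp0 h2, ?_⟩
    calc p0 * Real.exp (-v) ≤ 1 * 1 := mul_le_mul hp1 h1 h2.le (by norm_num)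
      _ = 1 := one_mul 1
  have hBr : ∀ v, 0 ≤ v → 0 ≤ B v ∧ B v ≤ q := by
    intro v hv
    have h2 := Real.exp_pos (-v)
    constructor
    · exact div_nonneg (by positivity) (hden v).le
    · refine le_trans ?_ hq
      simp only [hBdef]
      apply div_le_self (by positivity)
      have : 0 < o * Real.exp (-v) := by positivity
      linarith
  have hψ : ∀ v, HasDerivAt (fun w => Psi d r t (P w) (B w))
      (-(P v) * SA d r t (P v) (B v) - B v * g v * SB d r t (P v) (B v)) v :=
    fun v => Psi_deriv hru d r t (hP v) (hB v)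
  have key := calc2 (fun w => Psi d r t (P w) (B w))
    (fun v => -(P v) * SA d r t (P v) (B v) - B v * g v * SB d r t (P v) (B v)) o ho
    (fun v hv => lt_of_lt_of_le (hPr v hv).1 (Psi_ge d r t (hPr v hv).1.le (hPr v hv).2
      (hBr v hv).1 ((hBr v hv).2.trans hq1.le)))
    (fun v _ => hψ v)
    (by
      have e1 : P 0 = p0 := by simp [hPdef]
      have e2 : B 0 = b0 := by
        simp only [hBdef, neg_zero, Real.exp_zero, mul_one]
        have : (1 + o) ≠ 0 := by positivity
        field_simp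
      simp only [e1, e2]
      exact h0)
    (by
      intro v hv hle
      have hin := main_ineq hbr hloc htr d r t (hPr v hv).1.le (hPr v hv).2 (hBr v hv).1
        (lt_of_le_of_lt (hBr v hv).2 hq1)
      have hSB := SB_nonneg d r t (hPr v hv).1.le (hPr v hv).2 (hBr v hv).1
        ((hBr v hv).2.trans hq1.le)
      have h1 : B v * Psi d r t (P v) (B v) ≤ B v * g v :=
        mul_le_mul_of_nonneg_left hle (hBr v hv).1
      have h2 := mul_le_mul_of_nonneg_right h1 hSB
      linarith)
  have h := key u hu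
  refine le_trans ?_ h
  exact Psi_anti hru d r t (hPr u hu).1.le (hPr u hu).2 (hBr u hu).1 (hBr u hu).2 hq1.le

/-- Sharpness: if `phi p q ≥ δ` then `phi (K p) (q / (1 + δ K))` is at least `1 - 1 / (1 + δ K)`. -/
theorem sharp (hbr : P_bridge) (hloc : P_local) (htr : P_trans) (hru : P_russo)
    (d r : ℕ) {p q q' K : ℝ} (hp : 0 < p) (hq : 0 ≤ q) (hpq : p ≤ 1 - q) (hK : 1 ≤ K)
    (hKp : K * p < 1) (hq'0 : 0 ≤ q')
    (hq' : q' ≤ (1 - K * p) * q / (1 + phi d r p q * K)) :
    1 - 1 / (1 + phi d r p q * K) ≤ phi d r (K * p) q' := by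
  set δ : ℝ := phi d r p q with hδ
  have hδ0 : 0 ≤ δ := phi_nonneg d r p q
  rcases hδ0.eq_or_lt with h0 | hδp
  · rw [← h0]
    simp only [zero_mul, add_zero, div_one, sub_self]
    exact phi_nonneg _ _ _ _
  by_contra hcon
  push Not at hcon
  have hK0 : 0 < K := by linarith
  set o : ℝ := δ * K with hodef
  have ho : 0 < o := mul_pos hδp hK0
  have hKp0 : 0 < K * p := mul_pos hK0 hp
  have h1Kp : 0 < 1 - K * p := by linarith
  have hq1 : q < 1 := by linarith
  set b1 : ℝ := q' / (1 - K * p) with hb1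
  have hb10 : 0 ≤ b1 := div_nonneg hq'0 h1Kp.le
  have hb1q : b1 * (1 + o) ≤ q := by
    rw [hb1, div_mul_eq_mul_div, div_le_iff₀ h1Kp]
    rw [le_div_iff₀ (by positivity)] at hq'
    linarith
  have hb11 : b1 ≤ 1 := by nlinarith
  have he : 1 - 1 / (1 + o) = 1 / (1 + 1 / o) := by field_simp; ring
  rw [he] at hcon
  have hstart : ∀ t, Psi d r t (K * p) b1 < 1 / (1 + 1 / o) := by
    intro t
    calc Psi d r t (K * p) b1 = phiT d r (K * p) (b1 * (1 - K * p)) t 0 :=
          Psi_eq hbr hloc d r t hKp0.le hKp.le hb10 hb11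
      _ = phiT d r (K * p) q' t 0 := by rw [hb1, div_mul_cancel₀ _ h1Kp.ne']
      _ ≤ phi d r (K * p) q' := phiT_le_phi d r (K * p) q' t
      _ < _ := hcon
  have hlogK : 0 ≤ Real.log K := Real.log_nonneg hK
  have hup : δ ≤ δ / (1 + δ) := by
    rw [hδ]
    apply phi_le_of d r p q (by positivity)
    intro t
    have h1p : 0 < 1 - p := by
      have : p ≤ K * p := by nlinarith
      linarith
    have hqd : q ≤ q / (1 - p) := by
      rw [le_div_iff₀ h1p]
      nlinarith
    have hqd1 : q / (1 - p) ≤ 1 := by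
      rw [div_le_one h1p]
      linarith
    have e1 : phiT d r p q t 0 = Psi d r t p (q / (1 - p)) := by
      rw [Psi_eq hbr hloc d r t hp.le (by linarith) (div_nonneg hq h1p.le) hqd1,
        div_mul_cancel₀ _ h1p.ne']
    have hpb := path_bound3 hbr hloc htr hru d r t hKp0 hKp.le hb10 ho hb1q hq1 (hstart t) hlogK
    have hpp : K * p * Real.exp (-Real.log K) = p := by
      rw [Real.exp_neg, Real.exp_log hK0]; field_simp
    rw [hpp, Real.exp_log hK0] at hpb
    calc phiT d r p q t 0 = Psi d r t p (q / (1 - p)) := e1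
      _ ≤ Psi d r t p q := Psi_anti hru d r t hp.le (by linarith) hq hqd hqd1
      _ ≤ 1 / (1 + K / o) := hpb
      _ = δ / (1 + δ) := by rw [hodef]; field_simp; ring
  have h2 : δ / (1 + δ) < δ := by
    rw [div_lt_iff₀ (by positivity)]
    nlinarith
  linarith

/-- `phi → 1` as `(p, q) → (0, 0)` if and only if `q_c > 0`. -/
theorem tendsto_one_iff (hbr : P_bridge) (hloc : P_local) (htr : P_trans) (hru : P_russo)
    (d r : ℕ) :
    Tendsto (fun z : ℝ × ℝ => phi d r z.1 z.2) (𝓝[{z | 0 < z.1 ∧ 0 ≤ z.2 ∧ z.1 + z.2 ≤ 1}] (0, 0))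
      (𝓝 1) ↔ 0 < qc d r := by
  have hbdd : BddBelow {q : ℝ | 0 ≤ q ∧ q ≤ 1 ∧
      Tendsto (fun p => phi d r p q) (𝓝[Set.Ioc 0 (1 - q)] 0) (𝓝 0)} := ⟨0, fun x hx => hx.1⟩
  have hne : {q : ℝ | 0 ≤ q ∧ q ≤ 1 ∧
      Tendsto (fun p => phi d r p q) (𝓝[Set.Ioc 0 (1 - q)] 0) (𝓝 0)}.Nonempty := by
    refine ⟨1, by norm_num, le_rfl, ?_⟩
    simp
  constructor
  · intro h
    by_contra hqc
    push Not at hqc
    have h1 : ∀ᶠ z in 𝓝[{z : ℝ × ℝ | 0 < z.1 ∧ 0 ≤ z.2 ∧ z.1 + z.2 ≤ 1}] (0, 0),
        1 / 2 < phi d r z.1 z.2 := h.eventually (lt_mem_nhds (by norm_num))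
    rw [eventually_nhdsWithin_iff, Metric.eventually_nhds_iff] at h1
    obtain ⟨ε, hε, hb⟩ := h1
    have hε2 : qc d r < min ε (1 / 2) := lt_of_le_of_lt hqc (lt_min hε (by norm_num))
    obtain ⟨q', ⟨hq0, hq1, hlim⟩, hlt⟩ := exists_lt_of_csInf_lt hne hε2
    have hq2 : q' < 1 / 2 := hlt.trans_le (min_le_right _ _)
    have hqε : q' < ε := hlt.trans_le (min_le_left _ _)
    rw [nhdsWithin_Ioc_eq_nhdsGT (by linarith : (0 : ℝ) < 1 - q')] at hlim
    have ev1 : ∀ᶠ p in 𝓝[>] (0 : ℝ), phi d r p q' < 1 / 2 :=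
      hlim.eventually (gt_mem_nhds (by norm_num))
    have ev2 : ∀ᶠ p in 𝓝[>] (0 : ℝ), p ∈ Set.Ioo (0 : ℝ) (min ε (1 / 2)) :=
      Ioo_mem_nhdsGT (lt_min hε (by norm_num))
    obtain ⟨p, hp1, hp2⟩ := (ev1.and ev2).exists
    have hpε : p < ε := hp2.2.trans_le (min_le_left _ _)
    have hp12 : p < 1 / 2 := hp2.2.trans_le (min_le_right _ _)
    have h3 := hb (y := (p, q')) (by
      rw [Prod.dist_eq, max_lt_iff]
      constructor
      · simp only [Real.dist_eq, sub_zero, abs_of_pos hp2.1]; exact hpε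
      · simp only [Real.dist_eq, sub_zero, abs_of_nonneg hq0]; exact hqε)
      ⟨hp2.1, hq0, by show p + q' ≤ 1; linarith⟩
    simp only at h3
    linarith
  · intro hqc
    have hlow : Tendsto (fun z : ℝ × ℝ => 1 - 2 * z.2 / qc d r)
        (𝓝[{z | 0 < z.1 ∧ 0 ≤ z.2 ∧ z.1 + z.2 ≤ 1}] (0, 0)) (𝓝 1) := by
      have hc : Continuous (fun z : ℝ × ℝ => 1 - 2 * z.2 / qc d r) := by fun_prop
      have h2 := hc.tendsto (0, 0)
      simp only [mul_zero, zero_div, sub_zero] at h2
      exact h2.mono_left nhdsWithin_le_nhds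
    refine tendsto_of_tendsto_of_tendsto_of_le_of_le' hlow tendsto_const_nhds ?_ ?_
    · rw [eventually_nhdsWithin_iff, Metric.eventually_nhds_iff]
      refine ⟨min (1 / 2) (qc d r), lt_min (by norm_num) hqc, ?_⟩
      rintro ⟨p, q⟩ hd ⟨hp, hq, hpq⟩
      simp only at hp hq hpq ⊢
      rw [Prod.dist_eq, max_lt_iff] at hd
      simp only [Real.dist_eq, sub_zero, abs_of_pos hp, abs_of_nonneg hq] at hd
      have hp2 : p < 1 / 2 := hd.1.trans_le (min_le_left _ _)
      have hqq : q < qc d r := hd.2.trans_le (min_le_right _ _)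
      refine le_trans ?_ (mean_field hbr hloc htr hru d r hq hqq hp (by linarith) (by linarith))
      have h1p : 0 < 1 - p := by linarith
      have h2p : 1 / (1 - p) ≤ 2 := by
        rw [div_le_iff₀ h1p]
        linarith
      have e1 : q / ((1 - p) * qc d r) = (1 / (1 - p)) * (q / qc d r) := by field_simp
      have e2 : 2 * q / qc d r = 2 * (q / qc d r) := by ring
      rw [e1, e2]
      have : 0 ≤ q / qc d r := div_nonneg hq hqc.le
      nlinarith
    · exact Eventually.of_forall fun z => phi_le_one d r z.1 z.2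

/-- Sequences of parameters tending to zero with `log q / log p → α`. -/
def Seqs (α : ℝ) (p q : ℕ → ℝ) : Prop :=
  (∀ n, 0 < p n) ∧ (∀ n, 0 < q n) ∧ (∀ n, p n + q n ≤ 1) ∧ Tendsto p atTop (𝓝 0) ∧
    Tendsto q atTop (𝓝 0) ∧ Tendsto (fun n => Real.log (q n) / Real.log (p n)) atTop (𝓝 α)

theorem Seqs.comp {α : ℝ} {p q : ℕ → ℝ} (h : Seqs α p q) {φ : ℕ → ℕ} (hφ : Tendsto φ atTop atTop) :
    Seqs α (fun n => p (φ n)) (fun n => q (φ n)) :=
  ⟨fun _ => h.1 _, fun _ => h.2.1 _, fun _ => h.2.2.1 _, h.2.2.2.1.comp hφ, h.2.2.2.2.1.comp hφ,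
    h.2.2.2.2.2.comp hφ⟩

/-- The zero-one law. -/
theorem zero_one (hbr : P_bridge) (hloc : P_local) (htr : P_trans) (hru : P_russo)
    (d r : ℕ) (α : ℝ) :
    (∀ p q : ℕ → ℝ, Seqs α p q → Tendsto (fun n => phi d r (p n) (q n)) atTop (𝓝 0)) ∨
    (∃ p q : ℕ → ℝ, Seqs α p q ∧ Tendsto (fun n => phi d r (p n) (q n)) atTop (𝓝 1)) := by
  by_cases hall : ∀ p q : ℕ → ℝ, Seqs α p q → Tendsto (fun n => phi d r (p n) (q n)) atTop (𝓝 0)
  · exact Or.inl hall
  right
  push Not at hall
  obtain ⟨p0, q0, hs0, hnt⟩ := hall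
  -- a subsequence with `phi ≥ δ`
  obtain ⟨δ, hδ, hfr⟩ : ∃ δ > 0, ∃ᶠ n in atTop, δ ≤ phi d r (p0 n) (q0 n) := by
    by_contra hcon
    push Not at hcon
    apply hnt
    rw [Metric.tendsto_atTop]
    intro ε hε
    have h1 := hcon ε hε
    rw [eventually_atTop] at h1
    obtain ⟨N, hN⟩ := h1
    refine ⟨N, fun n hn => ?_⟩
    rw [Real.dist_eq, sub_zero, abs_of_nonneg (phi_nonneg _ _ _ _)]
    exact hN n hn
  obtain ⟨ns, hns, hnδ⟩ := extraction_of_frequently_atTop hfr
  have hs1 := hs0.comp hns.tendsto_atTop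
  -- `K n = - log p`
  have hKt : Tendsto (fun n => -Real.log (p0 (ns n))) atTop atTop := by
    rw [tendsto_neg_atTop_iff]
    have hp : Tendsto (fun n => p0 (ns n)) atTop (𝓝[>] 0) :=
      tendsto_nhdsWithin_iff.mpr ⟨hs1.2.2.2.1, Eventually.of_forall fun n => hs1.1 n⟩
    exact Real.tendsto_log_nhdsGT_zero.comp hp
  have hKe : ∀ n, p0 (ns n) = Real.exp (-(-Real.log (p0 (ns n)))) := fun n => by
    rw [neg_neg, Real.exp_log (hs1.1 n)]
  have hKp : Tendsto (fun n => -Real.log (p0 (ns n)) * p0 (ns n)) atTop (𝓝 0) := by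
    have h1 := (Real.tendsto_pow_mul_exp_neg_atTop_nhds_zero 1).comp hKt
    refine h1.congr fun n => ?_
    simp only [Function.comp_apply, pow_one]
    rw [← hKe n]
  have hev : ∀ᶠ n in atTop, 1 ≤ -Real.log (p0 (ns n)) ∧ -Real.log (p0 (ns n)) * p0 (ns n) < 1 / 2 :=
    (hKt.eventually_ge_atTop 1).and (hKp.eventually (gt_mem_nhds (by norm_num)))
  rw [eventually_atTop] at hev
  obtain ⟨N, hN⟩ := hev
  have hsh : Tendsto (fun n : ℕ => n + N) atTop atTop := tendsto_add_atTop_nat N
  set p : ℕ → ℝ := fun n => p0 (ns (n + N)) with hpdef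
  set q : ℕ → ℝ := fun n => q0 (ns (n + N)) with hqdef
  have hs : Seqs α p q := hs1.comp hsh
  set K : ℕ → ℝ := fun n => -Real.log (p n) with hKdef
  have hK1 : ∀ n, 1 ≤ K n := fun n => (hN (n + N) (by omega)).1
  have hKp2 : ∀ n, K n * p n < 1 / 2 := fun n => (hN (n + N) (by omega)).2
  have hKT : Tendsto K atTop atTop := hKt.comp hsh
  have hKPT : Tendsto (fun n => K n * p n) atTop (𝓝 0) := hKp.comp hsh
  have hφδ : ∀ n, δ ≤ phi d r (p n) (q n) := fun n => hnδ (n + N)
  refine ⟨fun n => K n * p n, fun n => q n / (2 * (1 + K n)), ⟨?_, ?_, ?_, hKPT, ?_, ?_⟩, ?_⟩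
  · exact fun n => mul_pos (by linarith [hK1 n]) (hs.1 n)
  · exact fun n => div_pos (hs.2.1 n) (by linarith [hK1 n])
  · intro n
    have h1 := hKp2 n
    have h2 : q n / (2 * (1 + K n)) ≤ 1 / 4 := by
      rw [div_le_iff₀ (by linarith [hK1 n])]
      have := hs.2.2.1 n
      have := hs.1 n
      have := hK1 n
      nlinarith
    linarith
  · refine squeeze_zero (fun n => (div_pos (hs.2.1 n) (by linarith [hK1 n])).le) (fun n => ?_)
      hs.2.2.2.2.1
    exact div_le_self (hs.2.1 n).le (by linarith [hK1 n])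
  · have hlogK : Tendsto (fun n => Real.log (K n) / K n) atTop (𝓝 0) :=
      (Real.isLittleO_log_id_atTop.tendsto_div_nhds_zero).comp hKT
    have hlogK1 : Tendsto (fun n => (Real.log 2 + Real.log (1 + K n)) / K n) atTop (𝓝 0) := by
      have h1 : Tendsto (fun n => (Real.log 2 + (Real.log 2 + Real.log (K n))) / K n) atTop (𝓝 0) := by
        have h2 : Tendsto (fun n => (2 * Real.log 2) / K n + Real.log (K n) / K n) atTop
            (𝓝 (0 + 0)) := (hKT.const_div_atTop _).add hlogK
        rw [add_zero] at h2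
        refine h2.congr fun n => ?_
        ring
      refine squeeze_zero (fun n => ?_) (fun n => ?_) h1
      · have := hK1 n
        exact div_nonneg (add_nonneg (Real.log_nonneg (by norm_num))
          (Real.log_nonneg (by linarith))) (by linarith)
      · have hk := hK1 n
        have hk0 : 0 < K n := by linarith
        apply div_le_div_of_nonneg_right _ hk0.le
        have : Real.log (1 + K n) ≤ Real.log 2 + Real.log (K n) := by
          rw [← Real.log_mul (by norm_num) hk0.ne']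
          exact Real.log_le_log (by linarith) (by linarith)
        linarith
    have hfin : Tendsto (fun n => (Real.log (q n) / Real.log (p n) +
        (Real.log 2 + Real.log (1 + K n)) / K n) / (1 - Real.log (K n) / K n)) atTop
        (𝓝 ((α + 0) / (1 - 0))) :=
      (hs.2.2.2.2.2.add hlogK1).div (tendsto_const_nhds.sub hlogK) (by norm_num)
    rw [add_zero, sub_zero, div_one] at hfin
    refine hfin.congr fun n => ?_
    have hk := hK1 n
    have hk0 : 0 < K n := by linarith
    have hlp : Real.log (p n) = -K n := by simp only [hKdef, neg_neg]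
    have e1 : Real.log (q n / (2 * (1 + K n))) = Real.log (q n) - (Real.log 2 + Real.log (1 + K n)) := by
      rw [Real.log_div (hs.2.1 n).ne' (by positivity), Real.log_mul (by norm_num) (by positivity)]
    have e2 : Real.log (K n * p n) = Real.log (K n) - K n := by
      rw [Real.log_mul hk0.ne' (hs.1 n).ne', hlp]
      ring
    have hlt : Real.log (K n) < K n := by
      have := Real.log_le_sub_one_of_pos hk0
      linarith
    have h3 : Real.log (K n) - K n ≠ 0 := by linarith
    have h4 : 1 - Real.log (K n) / K n ≠ 0 := by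
      have : Real.log (K n) / K n < 1 := by rw [div_lt_one hk0]; exact hlt
      linarith
    simp only
    rw [e1, e2, hlp]
    have e3 : 1 - Real.log (K n) / K n = -(Real.log (K n) - K n) / K n := by
      field_simp
      ring
    rw [e3]
    field_simp
    ring
  · have hlow : Tendsto (fun n => 1 - 1 / (1 + δ * K n)) atTop (𝓝 1) := by
      have h1 : Tendsto (fun n => 1 + δ * K n) atTop atTop :=
        tendsto_atTop_add_const_left _ _ (hKT.const_mul_atTop hδ)
      have h2 : Tendsto (fun n => 1 - 1 / (1 + δ * K n)) atTop (𝓝 (1 - 0)) :=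
        tendsto_const_nhds.sub (h1.const_div_atTop 1)
      rwa [sub_zero] at h2
    refine tendsto_of_tendsto_of_tendsto_of_le_of_le hlow tendsto_const_nhds (fun n => ?_)
      (fun n => phi_le_one d r _ _)
    have hk := hK1 n
    have hδn := hφδ n
    have hpn := hs.1 n
    have hqn := hs.2.1 n
    have hsum := hs.2.2.1 n
    have hkp := hKp2 n
    have hle1 := phi_le_one d r (p n) (q n)
    have hpos : 0 < 1 + phi d r (p n) (q n) * K n := by
      have := phi_nonneg d r (p n) (q n)
      have : 0 ≤ phi d r (p n) (q n) * K n := mul_nonneg this (by linarith)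
      linarith
    have hsh := sharp hbr hloc htr hru d r (p := p n) (q := q n) (q' := q n / (2 * (1 + K n)))
      (K := K n) hpn hqn.le (by linarith) hk (by linarith) (by positivity) (by
        rw [div_le_div_iff₀ (by positivity) hpos]
        have h5 : phi d r (p n) (q n) * K n ≤ 1 * K n :=
          mul_le_mul_of_nonneg_right hle1 (by linarith)
        have h6 : 1 / 2 ≤ 1 - K n * p n := by linarith
        have h7 : q n * (1 + phi d r (p n) (q n) * K n) ≤ q n * (1 + K n) :=
          mul_le_mul_of_nonneg_left (by linarith) hqn.le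
        have h8 : 0 ≤ q n * (1 + K n) := by positivity
        nlinarith)
    refine le_trans ?_ hsh
    have h9 : 1 + δ * K n ≤ 1 + phi d r (p n) (q n) * K n := by
      have := mul_le_mul_of_nonneg_right hδn (by linarith : (0 : ℝ) ≤ K n)
      linarith
    have h10 : 0 < 1 + δ * K n := by positivity
    have := one_div_le_one_div_of_le h10 h9
    linarith

end Pool.Agent.W826.PB
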